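import Pool.Agent.Helper705_SA.Normal

set_option autoImplicit false

namespace Pool.Agent.Helper705_SA

open SimpleGraph

/-- `G` is the amalgamated free product of its subgroups `A` and `B` over `A ⊓ B`. -/
def IsAmalgam {G : Type} [Group G] (A B : Subgroup G) : Prop :=
  A ⊔ B = ⊤ ∧ ∀ (K : Type) [Group K] (f : A →* K) (g : B →* K),
    (∀ x (hA : x ∈ A) (hB : x ∈ B), f ⟨x, hA⟩ = g ⟨x, hB⟩) →
      ∃ Φ : G →* K, (∀ a : A, Φ a = f a) ∧ (∀ b : B, Φ b = g b)

section Cocycle

variable {G : Type} [Group G]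

/-- The function `1_{x = y}` with values in `ZMod 2`. -/
noncomputable def ind {X : Type} (y x : X) : ZMod 2 :=
  open Classical in if x = y then 1 else 0

theorem ind_self {X : Type} (y : X) : ind y y = 1 := by simp [ind]

theorem ind_ne {X : Type} {x y : X} (h : x ≠ y) : ind y x = 0 := by simp [ind, h]

theorem ind_smul {X : Type} [MulAction G X] (g : G) (x y : X) :
    ind y (g⁻¹ • x) = ind (g • y) x := by
  by_cases h : x = g • y
  · have h1 : g⁻¹ • x = y := inv_smul_eq_iff.mpr h
    rw [h1, h, ind_self, ind_self]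
  · have h1 : g⁻¹ • x ≠ y := fun hc => h (inv_smul_eq_iff.mp hc)
    rw [ind_ne h1, ind_ne h]

/-- The affine permutation of `(G ⧸ C → ZMod 2) × G` given by an element of `G`. -/
def lin (C : Subgroup G) : G →* Equiv.Perm ((G ⧸ C → ZMod 2) × G) where
  toFun g :=
    { toFun := fun p => (fun x => p.1 (g⁻¹ • x), g * p.2)
      invFun := fun p => (fun x => p.1 (g • x), g⁻¹ * p.2)
      left_inv := by
        rintro ⟨f, h⟩
        simp
      right_inv := by
        rintro ⟨f, h⟩
        simp }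
  map_one' := by
    ext ⟨f, h⟩ <;> simp
  map_mul' a b := by
    ext ⟨f, h⟩
    · simp [mul_smul]
    · simp [mul_assoc]

/-- Translation by the indicator of the base coset. -/
noncomputable def tra (C : Subgroup G) : Equiv.Perm ((G ⧸ C → ZMod 2) × G) where
  toFun p := (fun x => p.1 x + ind (QuotientGroup.mk 1) x, p.2)
  invFun p := (fun x => p.1 x + ind (QuotientGroup.mk 1) x, p.2)
  left_inv := by
    rintro ⟨f, h⟩
    simp [add_assoc, CharTwo.add_self_eq_zero]
  right_inv := by
    rintro ⟨f, h⟩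
    simp [add_assoc, CharTwo.add_self_eq_zero]

theorem exists_cocycle (A B : Subgroup G) (h : IsAmalgam A B) :
    ∃ δ : G → (G ⧸ (A ⊓ B)) → ZMod 2,
      (∀ g k x, δ (g * k) x = δ g x + δ k (g⁻¹ • x)) ∧ (∀ a ∈ A, ∀ x, δ a x = 0) ∧
      (∀ b ∈ B, ∀ x, δ b x = ind (QuotientGroup.mk b) x + ind (QuotientGroup.mk 1) x) := by
  set C := A ⊓ B with hC
  obtain ⟨hsup, hUP⟩ := h
  obtain ⟨Φ, hΦA, hΦB⟩ := hUP (Equiv.Perm ((G ⧸ C → ZMod 2) × G)) ((lin C).comp A.subtype)
    (((MulAut.conj (tra C)).toMonoidHom.comp (lin C)).comp B.subtype) (by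
      intro c hcA hcB
      have hc : c ∈ C := ⟨hcA, hcB⟩
      have hcos : c⁻¹ • (QuotientGroup.mk 1 : G ⧸ C) = QuotientGroup.mk 1 := by
        change (QuotientGroup.mk (c⁻¹ * 1) : G ⧸ C) = QuotientGroup.mk 1
        rw [QuotientGroup.eq]
        simpa using hc
      apply Equiv.ext
      rintro ⟨f, k⟩
      change ((fun x => f (c⁻¹ • x), c * k) : (G ⧸ C → ZMod 2) × G) =
        (fun x => (f (c⁻¹ • x) + ind (QuotientGroup.mk 1) (c⁻¹ • x)) +
          ind (QuotientGroup.mk 1) x, c * k)
      refine Prod.ext ?_ rfl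
      funext x
      have : ind (QuotientGroup.mk 1 : G ⧸ C) (c⁻¹ • x) = ind (QuotientGroup.mk 1) x := by
        rw [ind_smul]
        congr 1
        exact (inv_smul_eq_iff.mp hcos).symm
      change f (c⁻¹ • x) = (f (c⁻¹ • x) + ind (QuotientGroup.mk 1) (c⁻¹ • x)) +
          ind (QuotientGroup.mk 1) x
      rw [this, add_assoc, CharTwo.add_self_eq_zero, add_zero])
  let W : Subgroup G :=
    { carrier := {g | ∃ d : (G ⧸ C) → ZMod 2, ∀ f k, Φ g (f, k) =
        (fun x => f (g⁻¹ • x) + d x, g * k)}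
      one_mem' := ⟨0, fun f k => by simp⟩
      mul_mem' := by
        rintro a b ⟨d, hd⟩ ⟨d', hd'⟩
        refine ⟨fun x => d' (a⁻¹ • x) + d x, fun f k => ?_⟩
        rw [map_mul, Equiv.Perm.mul_apply, hd', hd]
        refine Prod.ext ?_ (mul_assoc _ _ _).symm
        funext x
        change (f (b⁻¹ • (a⁻¹ • x)) + d' (a⁻¹ • x)) + d x = _
        rw [← mul_smul, ← mul_inv_rev, add_assoc]
      inv_mem' := by
        rintro a ⟨d, hd⟩
        refine ⟨fun x => d (a • x), fun f k => ?_⟩
        rw [map_inv, Equiv.Perm.inv_eq_iff_eq, hd]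
        refine Prod.ext ?_ ?_
        · funext x
          change f x = (f (a⁻¹⁻¹ • (a⁻¹ • x)) + d (a • (a⁻¹ • x))) + d x
          rw [inv_inv, smul_inv_smul, add_assoc, CharTwo.add_self_eq_zero, add_zero]
        · simp }
  have hWA : A ≤ W := by
    intro a ha
    refine ⟨0, fun f k => ?_⟩
    have := hΦA ⟨a, ha⟩
    change Φ a = lin C a at this
    rw [this]
    refine Prod.ext ?_ rfl
    funext x
    simp [lin]
  have hWB : B ≤ W := by
    intro b hb
    refine ⟨fun x => ind (QuotientGroup.mk b) x + ind (QuotientGroup.mk 1) x, fun f k => ?_⟩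
    have := hΦB ⟨b, hb⟩
    change Φ b = tra C * lin C b * (tra C)⁻¹ at this
    rw [this]
    change ((fun x => (f (b⁻¹ • x) + ind (QuotientGroup.mk 1) (b⁻¹ • x)) +
      ind (QuotientGroup.mk 1) x, b * k) : (G ⧸ C → ZMod 2) × G) = _
    refine Prod.ext ?_ rfl
    funext x
    change (f (b⁻¹ • x) + ind (QuotientGroup.mk 1) (b⁻¹ • x)) + ind (QuotientGroup.mk 1) x =
      f (b⁻¹ • x) + (ind (QuotientGroup.mk b) x + ind (QuotientGroup.mk 1) x)
    rw [ind_smul, add_assoc]
    congr 2
    change ind (QuotientGroup.mk (b * 1) : G ⧸ C) x = _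
    rw [mul_one]
  have hW : ∀ g, g ∈ W := by
    have : (⊤ : Subgroup G) ≤ W := by
      rw [← hsup]; exact sup_le hWA hWB
    intro g; exact this (Subgroup.mem_top g)
  choose δ hδ using hW
  have hδ0 : ∀ g d, (∀ f k, Φ g (f, k) = (fun x => f (g⁻¹ • x) + d x, g * k)) → δ g = d := by
    intro g d hd
    have h1 := (hδ g 0 1).symm.trans (hd 0 1)
    have h2 := congrArg Prod.fst h1
    funext x
    simpa using congrFun h2 x
  refine ⟨δ, ?_, ?_, ?_⟩
  · intro g k x
    have := hδ0 (g * k) (fun x => δ k (g⁻¹ • x) + δ g x) (by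
      intro f l
      rw [map_mul, Equiv.Perm.mul_apply, hδ k, hδ g]
      refine Prod.ext ?_ (mul_assoc _ _ _).symm
      funext x
      change (f (k⁻¹ • (g⁻¹ • x)) + δ k (g⁻¹ • x)) + δ g x = _
      rw [← mul_smul, ← mul_inv_rev, add_assoc])
    rw [this, add_comm]
  · intro a ha x
    have := hδ0 a 0 (by
      intro f k
      have := hΦA ⟨a, ha⟩
      change Φ a = lin C a at this
      rw [this]
      refine Prod.ext ?_ rfl
      funext x
      simp [lin])
    rw [this]; rfl
  · intro b hb x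
    have := hδ0 b (fun x => ind (QuotientGroup.mk b) x + ind (QuotientGroup.mk 1) x) (by
      intro f k
      have := hΦB ⟨b, hb⟩
      change Φ b = tra C * lin C b * (tra C)⁻¹ at this
      rw [this]
      change ((fun x => (f (b⁻¹ • x) + ind (QuotientGroup.mk 1) (b⁻¹ • x)) +
        ind (QuotientGroup.mk 1) x, b * k) : (G ⧸ C → ZMod 2) × G) = _
      refine Prod.ext ?_ rfl
      funext x
      change (f (b⁻¹ • x) + ind (QuotientGroup.mk 1) (b⁻¹ • x)) + ind (QuotientGroup.mk 1) x =
        f (b⁻¹ • x) + (ind (QuotientGroup.mk b) x + ind (QuotientGroup.mk 1) x)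
      rw [ind_smul, add_assoc]
      congr 2
      change ind (QuotientGroup.mk (b * 1) : G ⧸ C) x = _
      rw [mul_one])
    rw [this]

end Cocycle

section Tree

variable {G : Type} [Group G] (A B : Subgroup G)

/-- The coset graph of two subgroups. -/
def cosetGraph : SimpleGraph ((G ⧸ A) ⊕ (G ⧸ B)) where
  Adj x y := ∃ g : G, (x = Sum.inl (QuotientGroup.mk g) ∧ y = Sum.inr (QuotientGroup.mk g)) ∨
    (y = Sum.inl (QuotientGroup.mk g) ∧ x = Sum.inr (QuotientGroup.mk g))
  symm := ⟨by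
    rintro x y ⟨g, h | h⟩
    · exact ⟨g, Or.inr h⟩
    · exact ⟨g, Or.inl h⟩⟩
  loopless := ⟨by
    rintro x ⟨g, ⟨h1, h2⟩ | ⟨h1, h2⟩⟩
    · rw [h1] at h2; cases h2
    · rw [h1] at h2; cases h2⟩

theorem cosetGraph_connected (h : A ⊔ B = ⊤) : (cosetGraph A B).Connected := by
  rw [connected_iff]
  refine ⟨?_, ⟨Sum.inl (QuotientGroup.mk 1)⟩⟩
  -- everything is reachable from the base vertex
  have hadj : ∀ g : G, (cosetGraph A B).Adj (Sum.inl (QuotientGroup.mk g))
      (Sum.inr (QuotientGroup.mk g)) := fun g => ⟨g, Or.inl ⟨rfl, rfl⟩⟩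
  have key : ∀ g : G, ∀ k : G, (cosetGraph A B).Reachable (Sum.inl (QuotientGroup.mk k))
      (Sum.inl (QuotientGroup.mk (k * g))) := by
    intro g
    have hg : g ∈ A ⊔ B := by rw [h]; exact Subgroup.mem_top g
    rw [← Subgroup.closure_eq A, ← Subgroup.closure_eq B, ← Subgroup.closure_union] at hg
    induction hg using Subgroup.closure_induction with
    | mem x hx =>
      intro k
      rcases hx with hx | hx
      · have : (QuotientGroup.mk (k * x) : G ⧸ A) = QuotientGroup.mk k := by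
          rw [eq_comm, QuotientGroup.eq]; simpa using hx
        rw [this]
      · have : (QuotientGroup.mk (k * x) : G ⧸ B) = QuotientGroup.mk k := by
          rw [eq_comm, QuotientGroup.eq]; simpa using hx
        refine (hadj k).reachable.trans ?_
        rw [← this]
        exact (hadj (k * x)).symm.reachable
    | one => intro k; rw [mul_one]
    | mul x y _ _ hx hy =>
      intro k
      rw [← mul_assoc]
      exact (hx k).trans (hy (k * x))
    | inv x _ hx =>
      intro k
      have := hx (k * x⁻¹)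
      rw [inv_mul_cancel_right] at this
      exact this.symm
  have h1 : ∀ v, (cosetGraph A B).Reachable (Sum.inl (QuotientGroup.mk 1)) v := by
    rintro (v | v)
    · obtain ⟨g, rfl⟩ := QuotientGroup.mk_surjective v
      simpa using key g 1
    · obtain ⟨g, rfl⟩ := QuotientGroup.mk_surjective v
      exact (by simpa using key g 1 : (cosetGraph A B).Reachable _ _).trans (hadj g).reachable
  intro u v
  exact (h1 u).symm.trans (h1 v)

theorem cosetGraph_acyclic (h : IsAmalgam A B) : (cosetGraph A B).IsAcyclic := by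
  obtain ⟨δ, hδ, hδA, hδB⟩ := exists_cocycle A B h
  -- the potential
  have hwA : ∀ g k : G, (QuotientGroup.mk g : G ⧸ A) = QuotientGroup.mk k → δ g = δ k := by
    intro g k hgk
    rw [QuotientGroup.eq] at hgk
    funext x
    have := hδ g (g⁻¹ * k) x
    rw [mul_inv_cancel_left, hδA _ hgk, add_zero] at this
    exact this.symm
  have hwB : ∀ g k : G, (QuotientGroup.mk g : G ⧸ B) = QuotientGroup.mk k →
      (fun x => δ g x + ind (QuotientGroup.mk g : G ⧸ (A ⊓ B)) x) =
        (fun x => δ k x + ind (QuotientGroup.mk k) x) := by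
    intro g k hgk
    rw [QuotientGroup.eq] at hgk
    funext x
    have := hδ g (g⁻¹ * k) x
    rw [mul_inv_cancel_left, hδB _ hgk, ind_smul, ind_smul] at this
    rw [this]
    change _ = δ g x + (ind (QuotientGroup.mk (g * (g⁻¹ * k)) : G ⧸ (A ⊓ B)) x +
      ind (QuotientGroup.mk (g * 1) : G ⧸ (A ⊓ B)) x) + _
    rw [mul_inv_cancel_left, mul_one]
    have e : ∀ a b c : ZMod 2, a + b = a + (c + b) + c := by decide
    exact e _ _ _
  let pot : (G ⧸ A) ⊕ (G ⧸ B) → (G ⧸ (A ⊓ B)) → ZMod 2 := fun v => match v with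
    | Sum.inl v => Quotient.liftOn' v δ (fun a b hab => hwA a b (Quotient.sound' hab))
    | Sum.inr v => Quotient.liftOn' v
        (fun g => (fun x => δ g x + ind (QuotientGroup.mk g : G ⧸ (A ⊓ B)) x))
          (fun a b hab => hwB a b (Quotient.sound' hab))
  have hpot : ∀ g : G, ∀ x, pot (Sum.inr (QuotientGroup.mk g)) x =
      pot (Sum.inl (QuotientGroup.mk g)) x + ind (QuotientGroup.mk g) x := fun g x => rfl
  rw [isAcyclic_iff_forall_adj_isBridge]
  -- base case: edges oriented from `inl` to `inr`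
  have main : ∀ g : G, ¬ ((cosetGraph A B) \ SimpleGraph.fromEdgeSet
      {s(Sum.inl (QuotientGroup.mk g), Sum.inr (QuotientGroup.mk g))}).Reachable
        (Sum.inl (QuotientGroup.mk g)) (Sum.inr (QuotientGroup.mk g)) := by
    intro g hr
    have hconst : ∀ v, ((cosetGraph A B) \ SimpleGraph.fromEdgeSet
        {s(Sum.inl (QuotientGroup.mk g), Sum.inr (QuotientGroup.mk g))}).Reachable
        (Sum.inl (QuotientGroup.mk g)) v →
        pot v (QuotientGroup.mk g) = pot (Sum.inl (QuotientGroup.mk g)) (QuotientGroup.mk g) := by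
      intro v hv
      rw [SimpleGraph.reachable_iff_reflTransGen] at hv
      induction hv with
      | refl => rfl
      | tail _ hbc ih =>
        rename_i b c _
        rw [← ih]
        rw [SimpleGraph.sdiff_adj, SimpleGraph.fromEdgeSet_adj] at hbc
        obtain ⟨⟨k, h1⟩, h2⟩ := hbc
        have hk : (QuotientGroup.mk g : G ⧸ (A ⊓ B)) ≠ QuotientGroup.mk k := by
          intro hcon
          rw [QuotientGroup.eq] at hcon
          have hA : (QuotientGroup.mk g : G ⧸ A) = QuotientGroup.mk k :=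
            QuotientGroup.eq.mpr hcon.1
          have hB : (QuotientGroup.mk g : G ⧸ B) = QuotientGroup.mk k :=
            QuotientGroup.eq.mpr hcon.2
          apply h2
          rw [hA, hB]
          rcases h1 with ⟨rfl, rfl⟩ | ⟨rfl, rfl⟩
          · exact ⟨rfl, by simp⟩
          · exact ⟨Sym2.eq_swap, by simp⟩
        have h3 : pot (Sum.inr (QuotientGroup.mk k)) (QuotientGroup.mk g) =
            pot (Sum.inl (QuotientGroup.mk k)) (QuotientGroup.mk g) := by
          rw [hpot, ind_ne hk, add_zero]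
        rcases h1 with ⟨rfl, rfl⟩ | ⟨rfl, rfl⟩
        · exact h3
        · exact h3.symm
    have h1 := hconst _ hr
    rw [hpot, ind_self] at h1
    have e : ∀ a : ZMod 2, a + 1 ≠ a := by decide
    exact e _ h1
  intro v w hvw
  rw [isBridge_iff]
  obtain ⟨g, ⟨rfl, rfl⟩ | ⟨rfl, rfl⟩⟩ := hvw
  · exact main g
  · intro hr
    apply main g
    rw [Sym2.eq_swap]
    exact hr.symm

theorem cosetGraph_isTree (h : IsAmalgam A B) : (cosetGraph A B).IsTree :=
  ⟨cosetGraph_connected A B h.1, cosetGraph_acyclic A B h⟩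

end Tree

theorem stab_coset {G : Type} [Group G] (A : Subgroup G) (g : G) :
    MulAction.stabilizer G (QuotientGroup.mk g : G ⧸ A) = A.map (MulAut.conj g).toMonoidHom := by
  ext x
  rw [MulAction.mem_stabilizer_iff, Subgroup.mem_map]
  change (QuotientGroup.mk (x * g) : G ⧸ A) = QuotientGroup.mk g ↔ _
  rw [eq_comm, QuotientGroup.eq]
  constructor
  · intro h
    exact ⟨_, h, by simp [mul_assoc]⟩
  · rintro ⟨a, ha, rfl⟩
    simpa [mul_assoc] using ha

/-- The splitting given by an amalgam decomposition. -/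
theorem exists_amalgam_splitting {P : GrpClass} (hP : Nice P) {G : Type} [Group G]
    (A B : Subgroup G) (h : IsAmalgam A B) (hA : A ≠ ⊤) (hB : B ≠ ⊤) (hC : P ↥(A ⊓ B)) :
    ∃ S : Splitting P G, ∀ v : S.V, Nonempty (MulAction.stabilizer G v ≃* A) ∨
      Nonempty (MulAction.stabilizer G v ≃* B) := by
  have conjEquiv : ∀ (D : Subgroup G) (g : G),
      Nonempty (MulAction.stabilizer G (QuotientGroup.mk g : G ⧸ D) ≃* D) := by
    intro D g
    rw [stab_coset]
    exact ⟨(D.equivMapOfInjective _ (MulAut.conj g).injective).symm⟩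
  have notFix : ∀ (D : Subgroup G), D ≠ ⊤ → ∀ v : G ⧸ D, ∃ g : G, g • v ≠ v := by
    intro D hD v
    by_contra hcon
    push Not at hcon
    apply hD
    obtain ⟨k, rfl⟩ := QuotientGroup.mk_surjective v
    rw [eq_top_iff]
    intro x _
    have := hcon (k * x * k⁻¹)
    change (QuotientGroup.mk (k * x * k⁻¹ * k) : G ⧸ D) = QuotientGroup.mk k at this
    rw [eq_comm, QuotientGroup.eq] at this
    simpa [mul_assoc] using this
  refine ⟨{ V := (G ⧸ A) ⊕ (G ⧸ B)
            T := cosetGraph A B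
            isTree := cosetGraph_isTree A B h
            adj_smul := ?_
            no_inversion := ?_
            finite_vertex_orbits := ?_
            finite_edge_orbits := ?_
            edge_mem := ?_
            no_fixed_vertex := ?_ }, ?_⟩
  · rintro g v w ⟨k, ⟨rfl, rfl⟩ | ⟨rfl, rfl⟩⟩
    · exact ⟨g * k, Or.inl ⟨rfl, rfl⟩⟩
    · exact ⟨g * k, Or.inr ⟨rfl, rfl⟩⟩
  · rintro g v w ⟨k, ⟨rfl, rfl⟩ | ⟨rfl, rfl⟩⟩ ⟨h1, h2⟩
    · cases h1
    · cases h1
  · classical
    refine ⟨{Sum.inl (QuotientGroup.mk 1), Sum.inr (QuotientGroup.mk 1)}, ?_⟩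
    rintro (v | v)
    · obtain ⟨g, rfl⟩ := QuotientGroup.mk_surjective v
      refine ⟨g⁻¹, ?_⟩
      have : g⁻¹ • (Sum.inl (QuotientGroup.mk g) : (G ⧸ A) ⊕ (G ⧸ B)) =
          Sum.inl (QuotientGroup.mk 1) := by
        change Sum.inl (QuotientGroup.mk (g⁻¹ * g)) = _
        rw [inv_mul_cancel]
      rw [this]; simp
    · obtain ⟨g, rfl⟩ := QuotientGroup.mk_surjective v
      refine ⟨g⁻¹, ?_⟩
      have : g⁻¹ • (Sum.inr (QuotientGroup.mk g) : (G ⧸ A) ⊕ (G ⧸ B)) =
          Sum.inr (QuotientGroup.mk 1) := by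
        change Sum.inr (QuotientGroup.mk (g⁻¹ * g)) = _
        rw [inv_mul_cancel]
      rw [this]; simp
  · classical
    refine ⟨{(Sum.inl (QuotientGroup.mk 1), Sum.inr (QuotientGroup.mk 1)),
      (Sum.inr (QuotientGroup.mk 1), Sum.inl (QuotientGroup.mk 1))}, ?_⟩
    have e1 : ∀ g : G, g⁻¹ • (Sum.inl (QuotientGroup.mk g) : (G ⧸ A) ⊕ (G ⧸ B)) =
          Sum.inl (QuotientGroup.mk 1) := by
      intro g
      change Sum.inl (QuotientGroup.mk (g⁻¹ * g)) = _
      rw [inv_mul_cancel]
    have e2 : ∀ g : G, g⁻¹ • (Sum.inr (QuotientGroup.mk g) : (G ⧸ A) ⊕ (G ⧸ B)) =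
          Sum.inr (QuotientGroup.mk 1) := by
      intro g
      change Sum.inr (QuotientGroup.mk (g⁻¹ * g)) = _
      rw [inv_mul_cancel]
    rintro v w ⟨g, ⟨rfl, rfl⟩ | ⟨rfl, rfl⟩⟩
    · exact ⟨g⁻¹, by rw [e1, e2]; simp⟩
    · exact ⟨g⁻¹, by rw [e1, e2]; simp⟩
  · have key : ∀ g : G, P ↥(MulAction.stabilizer G (QuotientGroup.mk g : G ⧸ A) ⊓
        MulAction.stabilizer G (QuotientGroup.mk g : G ⧸ B)) := by
      intro g
      rw [stab_coset, stab_coset, ← Subgroup.map_inf _ _ _ (MulAut.conj g).injective]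
      exact hP.inj ((A ⊓ B).equivMapOfInjective _ (MulAut.conj g).injective).symm.toMonoidHom
        (MulEquiv.injective _) hC
    have hl : ∀ v : G ⧸ A, MulAction.stabilizer G (Sum.inl v : (G ⧸ A) ⊕ (G ⧸ B)) =
        MulAction.stabilizer G v := by
      intro v; ext x
      rw [MulAction.mem_stabilizer_iff, MulAction.mem_stabilizer_iff]
      exact Sum.inl_injective.eq_iff
    have hr : ∀ v : G ⧸ B, MulAction.stabilizer G (Sum.inr v : (G ⧸ A) ⊕ (G ⧸ B)) =
        MulAction.stabilizer G v := by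
      intro v; ext x
      rw [MulAction.mem_stabilizer_iff, MulAction.mem_stabilizer_iff]
      exact Sum.inr_injective.eq_iff
    rintro v w ⟨g, ⟨rfl, rfl⟩ | ⟨rfl, rfl⟩⟩
    · rw [hl, hr]; exact key g
    · rw [hl, hr, inf_comm]; exact key g
  · rintro (v | v)
    · obtain ⟨g, hg⟩ := notFix A hA v
      exact ⟨g, fun hcon => hg (Sum.inl_injective hcon)⟩
    · obtain ⟨g, hg⟩ := notFix B hB v
      exact ⟨g, fun hcon => hg (Sum.inr_injective hcon)⟩
  · have hl : ∀ v : G ⧸ A, MulAction.stabilizer G (Sum.inl v : (G ⧸ A) ⊕ (G ⧸ B)) =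
        MulAction.stabilizer G v := by
      intro v; ext x
      rw [MulAction.mem_stabilizer_iff, MulAction.mem_stabilizer_iff]
      exact Sum.inl_injective.eq_iff
    have hr : ∀ v : G ⧸ B, MulAction.stabilizer G (Sum.inr v : (G ⧸ A) ⊕ (G ⧸ B)) =
        MulAction.stabilizer G v := by
      intro v; ext x
      rw [MulAction.mem_stabilizer_iff, MulAction.mem_stabilizer_iff]
      exact Sum.inr_injective.eq_iff
    rintro (v | v)
    · left
      obtain ⟨g, rfl⟩ := QuotientGroup.mk_surjective v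
      change Nonempty (MulAction.stabilizer G
        (Sum.inl (QuotientGroup.mk g) : (G ⧸ A) ⊕ (G ⧸ B)) ≃* A)
      rw [hl]
      exact conjEquiv A g
    · right
      obtain ⟨g, rfl⟩ := QuotientGroup.mk_surjective v
      change Nonempty (MulAction.stabilizer G
        (Sum.inr (QuotientGroup.mk g) : (G ⧸ A) ⊕ (G ⧸ B)) ≃* B)
      rw [hr]
      exact conjEquiv B g

end Pool.Agent.Helper705_SA
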