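import Pool.Agent.Helper705_SA.Defs

set_option autoImplicit false

namespace Pool.Agent.Helper705_SA

/-- Classes closed under homomorphisms with finite kernel (in particular under subgroups), finite
index overgroups, and quotients by finite subgroups. -/
structure Nice (P : GrpClass) : Prop where
  ext : ∀ {K L : Type} [Group K] [Group L] (f : K →* L), Finite f.ker → P L → P K
  ovr : ∀ {K : Type} [Group K] (B : Subgroup K), B.FiniteIndex → P B → P K
  quot : ∀ {K L : Type} [Group K] [Group L] (f : K →* L), Finite f.ker →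
    Function.Surjective f → P K → P L
  fin : ∀ {K : Type} [Group K], Finite K → P K

theorem Nice.inj {P : GrpClass} (hP : Nice P) {K L : Type} [Group K] [Group L] (f : K →* L)
    (hf : Function.Injective f) (h : P L) : P K := by
  refine hP.ext f ?_ h
  rw [(MonoidHom.ker_eq_bot_iff f).mpr hf]
  infer_instance

theorem finite_of_finite_ker {K L : Type} [Group K] [Group L] (f : K →* L) (hk : Finite f.ker)
    (hL : Finite L) : Finite K := by
  have : Finite (K ⧸ f.ker) := Finite.of_injective _ (QuotientGroup.kerLift_injective f)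
  exact Finite.of_equiv _ (Subgroup.groupEquivQuotientProdSubgroup (s := f.ker)).symm

theorem comap_fi {K L : Type} [Group K] [Group L] (f : K →* L) (A : Subgroup L)
    (hA : A.FiniteIndex) : (A.comap f).FiniteIndex := by
  constructor
  rw [Subgroup.index_comap, Subgroup.relIndex]
  have := hA
  exact (inferInstance : (A.subgroupOf f.range).FiniteIndex).index_ne_zero

theorem fin_nice : Nice FinClass where
  ext f hf h := finite_of_finite_ker f hf h
  quot f _ hs h := by
    have : Finite _ := h
    exact Finite.of_surjective f hs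
  ovr := by
    intro K _ B hB h
    have : Finite B := h
    have := hB
    have : Finite (K ⧸ B) := inferInstance
    exact Finite.of_equiv _ (Subgroup.groupEquivQuotientProdSubgroup (s := B)).symm
  fin h := h

section

variable {D : Type} [Group D]

theorem zpowers_fi (z : D) (hz : (Subgroup.zpowers z).FiniteIndex) (m : ℤ) (hm : m ≠ 0) :
    (Subgroup.zpowers (z ^ m)).FiniteIndex := by
  have hle : Subgroup.zpowers (z ^ m) ≤ Subgroup.zpowers z := by
    rw [Subgroup.zpowers_le]
    exact Subgroup.zpow_mem _ (Subgroup.mem_zpowers z) m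
  constructor
  rw [← Subgroup.relIndex_mul_index hle]
  refine mul_ne_zero ?_ hz.index_ne_zero
  rw [Subgroup.relIndex]
  -- the surjection from `ℤ`
  let f : Multiplicative ℤ →* Subgroup.zpowers z :=
    (zpowersHom (Subgroup.zpowers z) ⟨z, Subgroup.mem_zpowers z⟩)
  have hf : ∀ k : Multiplicative ℤ, ((f k : Subgroup.zpowers z) : D) = z ^ (k.toAdd) := by
    intro k
    simp [f, zpowersHom_apply]
  have hsurj : Function.Surjective f := by
    rintro ⟨x, hx⟩
    obtain ⟨k, hk⟩ := Subgroup.mem_zpowers_iff.mp hx
    exact ⟨Multiplicative.ofAdd k, Subtype.ext (by rw [hf]; exact hk)⟩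
  have h1 := Subgroup.index_comap_of_surjective
    ((Subgroup.zpowers (z ^ m)).subgroupOf (Subgroup.zpowers z)) hsurj
  rw [← h1]
  have h2 : Subgroup.zpowers (Multiplicative.ofAdd m) ≤
      ((Subgroup.zpowers (z ^ m)).subgroupOf (Subgroup.zpowers z)).comap f := by
    rw [Subgroup.zpowers_le, Subgroup.mem_comap, Subgroup.mem_subgroupOf, hf]
    exact Subgroup.mem_zpowers _
  have h3 : (Subgroup.zpowers (Multiplicative.ofAdd m)).FiniteIndex := by
    constructor
    have : (AddSubgroup.zmultiples m).index = m.natAbs := Int.index_zmultiples m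
    have h4 : (Subgroup.zpowers (Multiplicative.ofAdd m)).index =
        (AddSubgroup.zmultiples m).index := rfl
    rw [h4, this]
    simpa using hm
  have := h3
  exact (Subgroup.finiteIndex_of_le h2).index_ne_zero

theorem infinite_of_order {z : D} (hz : ¬ IsOfFinOrder z) : Infinite D := by
  by_contra h
  rw [not_infinite_iff_finite] at h
  exact hz (isOfFinOrder_of_finite z)

theorem zpow_ne {z : D} (hz : ¬ IsOfFinOrder z) {m : ℤ} (h : z ^ m = 1) : m = 0 := by
  by_contra hm
  exact hz (isOfFinOrder_iff_zpow_eq_one.mpr ⟨m, hm, h⟩)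

theorem CClass.zpowers {z : D} (hD : CClass D) (hz : ¬ IsOfFinOrder z) :
    (Subgroup.zpowers z).FiniteIndex := by
  rcases hD with hD | ⟨w, hw, hfi⟩
  · exact absurd (isOfFinOrder_of_finite z) hz
  · obtain ⟨k, hk0, _, hk⟩ := Subgroup.exists_pow_mem_of_index_ne_zero hfi.index_ne_zero z
    obtain ⟨m, hm⟩ := Subgroup.mem_zpowers_iff.mp hk
    have hm0 : m ≠ 0 := by
      rintro rfl
      rw [zpow_zero] at hm
      exact hz (isOfFinOrder_iff_pow_eq_one.mpr ⟨k, hk0, hm.symm⟩)
    have := zpowers_fi w hfi m hm0
    rw [hm] at this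
    refine @Subgroup.finiteIndex_of_le _ _ _ _ this ?_
    rw [Subgroup.zpowers_le]
    exact Subgroup.pow_mem _ (Subgroup.mem_zpowers z) k

end

theorem not_order_map {K L : Type} [Group K] [Group L] (f : K →* L) (hk : Finite f.ker) {z : K}
    (hz : ¬ IsOfFinOrder z) : ¬ IsOfFinOrder (f z) := by
  intro h
  obtain ⟨n, hn, h1⟩ := isOfFinOrder_iff_pow_eq_one.mp h
  have hmem : z ^ n ∈ f.ker := by rw [MonoidHom.mem_ker, map_pow, h1]
  obtain ⟨m, hm, h2⟩ := isOfFinOrder_iff_pow_eq_one.mp
    (isOfFinOrder_of_finite (⟨z ^ n, hmem⟩ : f.ker))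
  have h3 := congrArg Subtype.val h2
  simp only [SubmonoidClass.mk_pow, Subgroup.coe_one] at h3
  rw [← pow_mul] at h3
  exact hz (isOfFinOrder_iff_pow_eq_one.mpr ⟨n * m, Nat.mul_pos hn hm, h3⟩)

theorem fi_of_map {K L : Type} [Group K] [Group L] (f : K →* L) (hk : Finite f.ker) {b : K}
    (h : (Subgroup.zpowers (f b)).FiniteIndex) : (Subgroup.zpowers b).FiniteIndex := by
  have hA := comap_fi f _ h
  set A := (Subgroup.zpowers (f b)).comap f with hAdef
  have hle : Subgroup.zpowers b ≤ A := by
    rw [Subgroup.zpowers_le, hAdef, Subgroup.mem_comap]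
    exact Subgroup.mem_zpowers _
  have hker : ∀ n : f.ker, n.1 ∈ A := by
    intro n
    rw [hAdef, Subgroup.mem_comap, MonoidHom.mem_ker.mp n.2]
    exact Subgroup.one_mem _
  have hsurj : Function.Surjective
      (fun n : f.ker => (QuotientGroup.mk ⟨n.1, hker n⟩ : A ⧸ (Subgroup.zpowers b).subgroupOf A)) := by
    intro q
    obtain ⟨a, rfl⟩ := QuotientGroup.mk_surjective q
    obtain ⟨k, hk⟩ := Subgroup.mem_zpowers_iff.mp (Subgroup.mem_comap.mp a.2)
    refine ⟨⟨a.1 * b ^ (-k), ?_⟩, ?_⟩
    · rw [MonoidHom.mem_ker, map_mul, map_zpow, zpow_neg, hk, mul_inv_cancel]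
    · rw [QuotientGroup.eq, Subgroup.mem_subgroupOf, Subgroup.mem_zpowers_iff]
      refine ⟨k, ?_⟩
      simp only [Subgroup.coe_mul, Subgroup.coe_inv]
      group
  have hfin : Finite (A ⧸ (Subgroup.zpowers b).subgroupOf A) := Finite.of_surjective _ hsurj
  constructor
  rw [← Subgroup.relIndex_mul_index hle]
  exact mul_ne_zero (Subgroup.finiteIndex_iff_finite_quotient.mpr hfin).index_ne_zero
    hA.index_ne_zero

theorem c_nice : Nice CClass where
  ext := by
    intro K L _ _ f hf h
    rcases h with h | ⟨z, hz, hfi⟩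
    · exact Or.inl (finite_of_finite_ker f hf h)
    · by_cases hK : Finite K
      · exact Or.inl hK
      right
      have := hfi
      have hfi' : ((Subgroup.zpowers z).comap f).FiniteIndex := comap_fi f _ hfi
      -- an element outside the kernel
      obtain ⟨b, hb, hb1⟩ : ∃ b ∈ (Subgroup.zpowers z).comap f, f b ≠ 1 := by
        by_contra hcon
        push Not at hcon
        have hle : (Subgroup.zpowers z).comap f ≤ f.ker := fun x hx => hcon x hx
        apply hK
        have h1 : Finite (K ⧸ (Subgroup.zpowers z).comap f) := inferInstance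
        have h2 : Finite ((Subgroup.zpowers z).comap f) := Finite.of_injective
          (Subgroup.inclusion hle) (Subgroup.inclusion_injective hle)
        exact Finite.of_equiv _ (Subgroup.groupEquivQuotientProdSubgroup
          (s := (Subgroup.zpowers z).comap f)).symm
      obtain ⟨m, hm⟩ := Subgroup.mem_zpowers_iff.mp (Subgroup.mem_comap.mp hb)
      have hm0 : m ≠ 0 := by
        rintro rfl
        rw [zpow_zero] at hm
        exact hb1 hm.symm
      refine ⟨b, ?_, ?_⟩
      · intro hfin
        have h1 : IsOfFinOrder (f b) := MonoidHom.isOfFinOrder f hfin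
        rw [← hm] at h1
        obtain ⟨k, hk, hk1⟩ := isOfFinOrder_iff_pow_eq_one.mp h1
        rw [← zpow_natCast, ← zpow_mul] at hk1
        have := zpow_ne hz hk1
        rcases mul_eq_zero.mp this with h | h
        · exact hm0 h
        · omega
      · apply fi_of_map f hf
        rw [← hm]
        exact zpowers_fi z hfi m hm0
  quot := by
    intro K L _ _ f hk hs h
    rcases h with h | ⟨z, hz, hfi⟩
    · exact Or.inl (Finite.of_surjective f hs)
    · right
      refine ⟨f z, not_order_map f hk hz, ?_⟩
      have h1 : ((Subgroup.zpowers (f z)).comap f).FiniteIndex := by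
        have := hfi
        refine Subgroup.finiteIndex_of_le (H := Subgroup.zpowers z) ?_
        rw [Subgroup.zpowers_le, Subgroup.mem_comap]
        exact Subgroup.mem_zpowers _
      constructor
      rw [← Subgroup.index_comap_of_surjective _ hs]
      exact h1.index_ne_zero
  ovr := by
    intro K _ B hB h
    have := hB
    rcases h with h | ⟨z, hz, hfi⟩
    · exact Or.inl (fin_nice.ovr B hB h)
    · right
      refine ⟨z, ?_, ?_⟩
      · intro h
        apply hz
        rw [isOfFinOrder_iff_pow_eq_one] at h ⊢
        obtain ⟨n, hn, h⟩ := h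
        exact ⟨n, hn, Subtype.ext (by simpa using h)⟩
      · have h1 : (Subgroup.zpowers z).map B.subtype = Subgroup.zpowers (z : K) := by
          rw [MonoidHom.map_zpowers]; rfl
        constructor
        have hle : Subgroup.zpowers (z : K) ≤ B := by
          rw [Subgroup.zpowers_le]; exact z.2
        rw [← Subgroup.relIndex_mul_index hle]
        refine mul_ne_zero ?_ hB.index_ne_zero
        rw [Subgroup.relIndex, ← h1]
        have h2 : ((Subgroup.zpowers z).map B.subtype).subgroupOf B = Subgroup.zpowers z := by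
          rw [Subgroup.subgroupOf, Subgroup.comap_map_eq_self_of_injective B.subtype_injective]
        rw [h2]
        exact hfi.index_ne_zero
  fin h := Or.inl h

/-- In an infinite group of `𝒞` there is a normal infinite cyclic subgroup of finite index,
inside any given one. -/
theorem exists_normal {D : Type} [Group D] (z : D) (hz : ¬ IsOfFinOrder z)
    (hfi : (Subgroup.zpowers z).FiniteIndex) :
    ∃ m : ℤ, m ≠ 0 ∧ (Subgroup.zpowers (z ^ m)).Normal ∧ (Subgroup.zpowers (z ^ m)).FiniteIndex := by
  have := hfi
  have hcore : (Subgroup.zpowers z).normalCore.FiniteIndex := inferInstance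
  have hle := Subgroup.normalCore_le (Subgroup.zpowers z)
  -- the core is cyclic
  have hcyc : ∃ m : ℤ, (Subgroup.zpowers z).normalCore = Subgroup.zpowers (z ^ m) := by
    have h1 : IsCyclic ((Subgroup.zpowers z).normalCore.subgroupOf (Subgroup.zpowers z)) :=
      inferInstance
    obtain ⟨g, hg⟩ := h1.exists_generator
    obtain ⟨m, hm⟩ := Subgroup.mem_zpowers_iff.mp g.1.2
    refine ⟨m, ?_⟩
    ext x
    constructor
    · intro hx
      have hx' : (⟨⟨x, hle hx⟩, hx⟩ :
          (Subgroup.zpowers z).normalCore.subgroupOf (Subgroup.zpowers z)) ∈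
            Subgroup.zpowers g := hg _
      obtain ⟨k, hk⟩ := Subgroup.mem_zpowers_iff.mp hx'
      rw [Subgroup.mem_zpowers_iff]
      refine ⟨k, ?_⟩
      have := congrArg (fun y => ((y.1 : Subgroup.zpowers z) : D)) hk
      simp only [Subgroup.coe_zpow] at this
      rw [hm]
      exact this
    · intro hx
      obtain ⟨k, hk⟩ := Subgroup.mem_zpowers_iff.mp hx
      rw [← hk, hm]
      exact Subgroup.zpow_mem _ g.2 k
  obtain ⟨m, hm⟩ := hcyc
  refine ⟨m, ?_, ?_, ?_⟩
  · rintro rfl
    rw [zpow_zero, Subgroup.zpowers_one_eq_bot] at hm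
    rw [hm] at hcore
    have : Finite (D ⧸ (⊥ : Subgroup D)) := inferInstance
    have : Finite D := Finite.of_equiv _ QuotientGroup.quotientBot.toEquiv
    exact hz (isOfFinOrder_of_finite z)
  · rw [← hm]; infer_instance
  · rw [← hm]; exact hcore

end Pool.Agent.Helper705_SA
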