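import Pool.Agent.Helper705_SA.GP

set_option autoImplicit false

namespace Pool.Agent.Helper705_SA

open SimpleGraph Pool.Agent.Helper270.Tree

theorem StronglyAccessible.congr {P : GrpClass} (hP : Nice P) {G Q : Type} [Group G] [Group Q]
    (e : G ≃* Q) (h : StronglyAccessible P Q) : StronglyAccessible P G := by
  obtain ⟨n, hn⟩ := h
  exact ⟨n, TerminatesIn.congr hP n e hn⟩

/-- Amalgams over groups of the class. -/
theorem stronglyAccessible_amalgam {P : GrpClass} (hP : Nice P) {G : Type} [Group G]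
    (A B : Subgroup G) (h : IsAmalgam A B) (hC : P ↥(A ⊓ B)) (hA : StronglyAccessible P A)
    (hB : StronglyAccessible P B) : StronglyAccessible P G := by
  by_cases hAt : A = ⊤
  · subst hAt
    exact StronglyAccessible.congr hP Subgroup.topEquiv.symm hA
  by_cases hBt : B = ⊤
  · subst hBt
    exact StronglyAccessible.congr hP Subgroup.topEquiv.symm hB
  obtain ⟨S, hS⟩ := exists_amalgam_splitting hP A B h hAt hBt hC
  obtain ⟨n, hn⟩ := hA
  obtain ⟨m, hm⟩ := hB
  refine ⟨max n m + 1, Or.inr ⟨S, fun v => ?_⟩⟩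
  rcases hS v with ⟨⟨e⟩⟩ | ⟨⟨e⟩⟩
  · exact TerminatesIn.congr hP _ e (hn.mono (le_max_left _ _))
  · exact TerminatesIn.congr hP _ e (hm.mono (le_max_right _ _))

namespace GraphProduct

variable {P : GrpClass} {ι : Type} {Γ : SimpleGraph ι} {H : ι → Type} [∀ i, Group (H i)]

/-- The vertex group `H v` meets the subgroup generated by the other ones trivially. -/
theorem retv (v : ι) : ∃ r : GraphProduct Γ H →* H v, (∀ x : H v, r (of Γ v x) = x) ∧
    ∀ i, i ≠ v → ∀ x : H i, r (of Γ i x) = 1 := by
  classical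
  let φ : ∀ i, H i →* H v := fun i => if h : i = v then h ▸ MonoidHom.id (H i) else 1
  have h1 : ∀ x : H v, φ v x = x := by
    intro x
    change (if h : v = v then _ else _ : H v →* H v) x = x
    rw [dif_pos rfl]; rfl
  have h2 : ∀ i, i ≠ v → ∀ x : H i, φ i x = 1 := by
    intro i hi x
    change (if h : i = v then _ else _ : H i →* H v) x = 1
    rw [dif_neg hi]; rfl
  refine ⟨lift φ ?_, ?_, ?_⟩
  · intro i j hij x y
    by_cases hi : i = v
    · have hj : j ≠ v := by
        rintro rfl
        exact hij.ne hi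
      rw [h2 j hj, mul_one, one_mul]
    · rw [h2 i hi, mul_one, one_mul]
  · intro x; rw [lift_of, h1]
  · intro i hi x; rw [lift_of, h2 i hi]

/-- If a vertex group acts without fixed vertex, the subgroup of its link belongs to the
class. -/
theorem link_mem (hP : Nice P) (S : Splitting P (GraphProduct Γ H)) (v : ι)
    (hfg : Group.FG (H v)) (hv : ¬ ∃ x : S.V, ∀ h : H v, of Γ v h • x = x) :
    P ↥(gu Γ H {j | Γ.Adj v j}) := by
  classical
  have hT := S.treeAct
  -- a hyperbolic element of the vertex group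
  obtain ⟨h0, hh0⟩ : ∃ h0 : H v, ∀ x : S.V, of Γ v h0 • x ≠ x := by
    letI act : MulAction (H v) S.V := MulAction.compHom S.V (of Γ v)
    have hTv : TreeAct (H v) S.T :=
      ⟨S.isTree, fun g x y hxy => S.adj_smul (of Γ v g) x y hxy,
        fun g x y hxy => S.no_inversion (of Γ v g) x y hxy⟩
    have := hTv.exists_hyperbolic hfg (by
      intro x
      by_contra hcon
      push Not at hcon
      exact hv ⟨x, fun h => hcon h⟩)
    exact this
  set g := of Γ v h0 with hg
  obtain ⟨L, l, hax⟩ := hT.exists_axis hh0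
  set B := gu Γ H {j | Γ.Adj v j} with hB
  have hcommB : ∀ p ∈ B, p * g = g * p := by
    have : B ≤ Subgroup.centralizer {g} := by
      apply gu_le
      intro i hi x
      rw [Subgroup.mem_centralizer_iff]
      intro y hy
      rw [Set.mem_singleton_iff.mp hy]
      exact of_comm hi h0 x
    intro p hp
    have := Subgroup.mem_centralizer_iff.mp (this hp) g rfl
    exact this.symm
  have hinjL := hax.line.injective S.isTree
  have htrans : ∀ p : B, ∃ c : ℤ, ∀ i, p.1 • L i = L (c + i) :=
    fun p => hT.commute_axis hax (hcommB p.1 p.2)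
  choose c hc using htrans
  have hcmul : ∀ p q : B, c (p * q) = c p + c q := by
    intro p q
    have h1 := hc (p * q) 0
    rw [Subgroup.coe_mul, mul_smul, hc q, hc p] at h1
    have := hinjL h1
    omega
  let χ : B →* Multiplicative ℤ :=
    { toFun := fun p => Multiplicative.ofAdd (c p)
      map_one' := by
        have := hcmul 1 1
        rw [mul_one] at this
        have : c 1 = 0 := by omega
        rw [this]; rfl
      map_mul' := fun p q => by rw [hcmul]; rfl }
  -- the finite index subgroup of elements with translation length divisible by `l`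
  set B' : Subgroup B := (Subgroup.zpowers (Multiplicative.ofAdd (l : ℤ))).comap χ with hB'
  have hB'fi : B'.FiniteIndex := by
    apply comap_fi
    constructor
    have h1 : (AddSubgroup.zmultiples (l : ℤ)).index = (l : ℤ).natAbs := Int.index_zmultiples _
    have h4 : (Subgroup.zpowers (Multiplicative.ofAdd (l : ℤ))).index =
        (AddSubgroup.zmultiples (l : ℤ)).index := rfl
    rw [h4, h1]
    have := hax.pos
    omega
  apply hP.ovr B' hB'fi
  have hk : ∀ p : B', ∃ k : ℤ, c p.1 = k * l := by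
    intro p
    obtain ⟨k, hk⟩ := Subgroup.mem_zpowers_iff.mp (Subgroup.mem_comap.mp p.2)
    refine ⟨k, ?_⟩
    have h1 : (Multiplicative.ofAdd (l : ℤ) ^ k).toAdd = k * l := by
      rw [toAdd_zpow, toAdd_ofAdd, smul_eq_mul]
    rw [← h1, hk]; rfl
  choose k hk using hk
  have hlpos : (0 : ℤ) < l := by exact_mod_cast hax.pos
  have hkmul : ∀ p q : B', k (p * q) = k p + k q := by
    intro p q
    have h1 := hk (p * q)
    rw [Subgroup.coe_mul, hcmul, hk p, hk q, ← add_mul] at h1
    exact (mul_right_cancel₀ hlpos.ne' h1).symm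
  have hzcomm : ∀ (p : B') (m : ℤ), p.1.1 * g ^ m = g ^ m * p.1.1 := by
    intro p m
    have h1 : Commute p.1.1 g := hcommB p.1.1 p.1.2
    exact (h1.zpow_right m).eq
  have hstab : ∀ (p : B') (i : ℤ), (g ^ (-(k p)) * p.1.1) • L i = L i := by
    intro p i
    rw [mul_smul, hc p.1, hax.smul_zpow, hk p]
    congr 1
    ring
  let f : B' →* ↥(MulAction.stabilizer (GraphProduct Γ H) (L 0) ⊓
      MulAction.stabilizer (GraphProduct Γ H) (L (0 + 1))) :=
    MonoidHom.mk' (fun p => ⟨g ^ (-(k p)) * p.1.1, hstab p _, hstab p _⟩) (by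
      intro p q
      apply Subtype.ext
      change g ^ (-(k (p * q))) * (p.1.1 * q.1.1) =
        (g ^ (-(k p)) * p.1.1) * (g ^ (-(k q)) * q.1.1)
      rw [hkmul, neg_add, zpow_add, mul_assoc, mul_assoc, ← mul_assoc (p.1.1), hzcomm p (-(k q))]
      simp only [mul_assoc])
  refine hP.inj f ?_ (S.edge_mem _ _ (hax.line.adj 0))
  rw [injective_iff_map_eq_one]
  intro p hp
  have h1 : g ^ (-(k p)) * p.1.1 = 1 := congrArg Subtype.val hp
  -- apply the retraction onto `H v`
  obtain ⟨r, hr1, hr2⟩ := retv (Γ := Γ) (H := H) v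
  have hrB : ∀ q ∈ B, r q = 1 := by
    have : B ≤ r.ker := by
      apply gu_le
      intro i hi x
      rw [MonoidHom.mem_ker]
      exact hr2 i (Ne.symm (SimpleGraph.Adj.ne hi)) x
    intro q hq
    exact MonoidHom.mem_ker.mp (this hq)
  have h2 := congrArg r h1
  rw [map_mul, map_zpow, hg, hr1, hrB _ p.1.2, mul_one, map_one] at h2
  have h3 : g ^ (-(k p)) = 1 := by
    rw [hg, ← map_zpow, h2, map_one]
  rw [h3, one_mul] at h1
  exact Subtype.ext (Subtype.ext h1)

/-- If all vertex groups have fixed vertices and there is no separating subset over the class,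
then the whole group has a fixed vertex. -/
theorem exists_fixed [Finite ι] (hP : Nice P) (S : Splitting P (GraphProduct Γ H))
    (hell : ∀ v : ι, ∃ x : S.V, ∀ h : H v, of Γ v h • x = x)
    (hsep : ∀ A B : Set ι, (∀ i, i ∈ A ∨ i ∈ B) → A ≠ Set.univ → B ≠ Set.univ →
      (∀ i j, i ∉ B → j ∉ A → ¬ Γ.Adj i j) → ¬ P ↥(gu Γ H (A ∩ B))) : False := by
  have hT := S.treeAct
  let F : ι → Set S.V := fun i => FixSet S.V (Set.range (of Γ i (H := H)))
  have hF : ∀ i, Conv S.T (F i) := fun i => fixSet_conv hT _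
  have hF0 : ∀ i, (F i).Nonempty := by
    intro i
    obtain ⟨x, hx⟩ := hell i
    refine ⟨x, ?_⟩
    rintro _ ⟨h, rfl⟩
    exact hx h
  have hadj : ∀ i j, Γ.Adj i j → (F i ∩ F j).Nonempty := by
    intro i j hij
    obtain ⟨y, hy⟩ := hF0 j
    obtain ⟨x, hx, hx'⟩ := exists_fixed_in_conv hT (hF i) (hF0 i) (Set.range (of Γ j (H := H))) (by
      rintro _ ⟨b, rfl⟩ x hx _ ⟨a, rfl⟩
      rw [← mul_smul, of_comm hij a b, mul_smul]
      congr 1
      exact hx _ ⟨a, rfl⟩) y hy
    exact ⟨x, hx, hx'⟩
  have hpair : ∀ i j, (F i ∩ F j).Nonempty := by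
    intro i j
    by_contra hcon
    obtain ⟨a, b, hab, ha, hb, h1, h2⟩ := (hF i).separate S.isTree (hF j) (hF0 i) (hF0 j) hcon
    let A : Set ι := {m | ¬ ∀ z ∈ F m, S.T.dist z a = S.T.dist z b + 1}
    let B : Set ι := {m | ¬ ∀ z ∈ F m, S.T.dist z b = S.T.dist z a + 1}
    apply hsep A B
    · intro m
      by_contra hm
      push Not at hm
      obtain ⟨hm1, hm2⟩ := hm
      have e1 : ∀ z ∈ F m, S.T.dist z a = S.T.dist z b + 1 := not_not.mp hm1
      have e2 : ∀ z ∈ F m, S.T.dist z b = S.T.dist z a + 1 := not_not.mp hm2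
      obtain ⟨z, hz⟩ := hF0 m
      have := e1 z hz
      have := e2 z hz
      omega
    · intro h
      have : j ∈ A := by rw [h]; trivial
      exact this h2
    · intro h
      have : i ∈ B := by rw [h]; trivial
      exact this h1
    · intro m m' hm hm' hadj'
      have e1 : ∀ z ∈ F m, S.T.dist z b = S.T.dist z a + 1 := not_not.mp hm
      have e2 : ∀ z ∈ F m', S.T.dist z a = S.T.dist z b + 1 := not_not.mp hm'
      obtain ⟨z, hz, hz'⟩ := hadj m m' hadj'
      have := e1 z hz
      have := e2 z hz'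
      omega
    · have hle : gu Γ H (A ∩ B) ≤ MulAction.stabilizer (GraphProduct Γ H) a ⊓
          MulAction.stabilizer (GraphProduct Γ H) b := by
        apply gu_le
        rintro m ⟨hmA, hmB⟩ x
        have hmA' : ∃ z ∈ F m, S.T.dist z a ≠ S.T.dist z b + 1 := by
          by_contra hcon'
          push Not at hcon'
          exact hmA hcon'
        have hmB' : ∃ z ∈ F m, S.T.dist z b ≠ S.T.dist z a + 1 := by
          by_contra hcon'
          push Not at hcon'
          exact hmB hcon'
        obtain ⟨z, hz, hz1⟩ := hmA'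
        obtain ⟨z', hz', hz1'⟩ := hmB'
        have e1 := (side_dichotomy S.isTree hab z).resolve_right hz1
        have e2 := (side_dichotomy S.isTree hab z').resolve_left hz1'
        obtain ⟨ha', hb'⟩ := (hF m).edge S.isTree hab hz hz' e1 e2
        exact ⟨ha' _ ⟨x, rfl⟩, hb' _ ⟨x, rfl⟩⟩
      exact hP.inj (Subgroup.inclusion hle) (Subgroup.inclusion_injective hle)
        (S.edge_mem a b hab)
  obtain ⟨x, hx⟩ := helly S.isTree F hF hpair
  obtain ⟨g, hg⟩ := S.no_fixed_vertex x
  apply hg
  exact mem_of_forall (MulAction.stabilizer (GraphProduct Γ H) x) (fun i h => hx i _ ⟨h, rfl⟩) g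

/-- The closure theorem for a class `P`. -/
theorem stronglyAccessible (hP : Nice P) (n : ℕ) : ∀ (ι : Type) [Finite ι] (Γ : SimpleGraph ι)
    (H : ι → Type) [∀ i, Group (H i)], Nat.card ι = n → (∀ i, Group.FG (H i)) →
    (∀ i, ∀ (K : Type) [Group K], P K → StronglyAccessible P (H i × K)) →
    StronglyAccessible P (GraphProduct Γ H) := by
  induction n using Nat.strong_induction_on with
  | _ n ih =>
  intro ι _ Γ H _ hcard hfg hprod
  -- subgroups of proper subsets
  have hsub : ∀ U : Set ι, U ≠ Set.univ → StronglyAccessible P ↥(gu Γ H U) := by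
    intro U hU
    have hlt : Nat.card U < n := by
      rw [← hcard]
      have h1 : U.ncard < (Set.univ : Set ι).ncard :=
        Set.ncard_lt_ncard (Set.ssubset_univ_iff.mpr hU) (Set.toFinite _)
      rw [Set.ncard_univ] at h1
      exact h1
    have := ih (Nat.card U) hlt U (Γ.induce U) (fun i : U => H i) rfl (fun i => hfg i)
      (fun i => hprod i)
    exact StronglyAccessible.congr hP (guEquiv U).symm this
  by_cases hsep : ∃ A B : Set ι, (∀ i, i ∈ A ∨ i ∈ B) ∧ A ≠ Set.univ ∧ B ≠ Set.univ ∧
      (∀ i j, i ∉ B → j ∉ A → ¬ Γ.Adj i j) ∧ P ↥(gu Γ H (A ∩ B))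
  · obtain ⟨A, B, hAB, hA, hB, hadj, hC⟩ := hsep
    refine stronglyAccessible_amalgam hP (gu Γ H A) (gu Γ H B) (isAmalgam A B hAB hadj) ?_
      (hsub A hA) (hsub B hB)
    rw [gu_inf]; exact hC
  have hsep' : ∀ A B : Set ι, (∀ i, i ∈ A ∨ i ∈ B) → A ≠ Set.univ → B ≠ Set.univ →
      (∀ i j, i ∉ B → j ∉ A → ¬ Γ.Adj i j) → ¬ P ↥(gu Γ H (A ∩ B)) := by
    intro A B h1 h2 h3 h4 h5
    exact hsep ⟨A, B, h1, h2, h3, h4, h5⟩
  by_cases hS : Nonempty (Splitting P (GraphProduct Γ H))
  swap
  · exact ⟨0, hS⟩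
  obtain ⟨S⟩ := hS
  by_cases hell : ∀ v : ι, ∃ x : S.V, ∀ h : H v, of Γ v h • x = x
  · exact (exists_fixed hP S hell hsep').elim
  push Not at hell
  obtain ⟨v, hv⟩ := hell
  have hlink := link_mem hP S v (hfg v) (by
    rintro ⟨x, hx⟩
    obtain ⟨h, hh⟩ := hv x
    exact hh (hx h))
  -- the star of `v` is everything
  have hstar : ∀ j, j = v ∨ Γ.Adj v j := by
    by_contra hcon
    push Not at hcon
    obtain ⟨j, hj1, hj2⟩ := hcon
    refine hsep' {i | i = v ∨ Γ.Adj v i} {i | i ≠ v} ?_ ?_ ?_ ?_ ?_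
    · intro i
      by_cases h : i = v
      · exact Or.inl (Or.inl h)
      · exact Or.inr h
    · intro h
      have : j ∈ {i | i = v ∨ Γ.Adj v i} := by rw [h]; trivial
      rcases this with h | h
      · exact hj1 h
      · exact hj2 h
    · intro h
      have : v ∈ {i | i ≠ v} := by rw [h]; trivial
      exact this rfl
    · intro i k hi hk hadj
      have hi' : i = v := by
        by_contra hcon; exact hi hcon
      apply hk
      right
      rw [← hi']; exact hadj
    · have : ({i | i = v ∨ Γ.Adj v i} ∩ {i | i ≠ v} : Set ι) = {j | Γ.Adj v j} := by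
        ext i
        constructor
        · rintro ⟨h1 | h1, h2⟩
          · exact absurd h1 h2
          · exact h1
        · intro h
          exact ⟨Or.inr h, (SimpleGraph.Adj.ne h).symm⟩
      rw [this]
      exact hlink
  -- so the graph product is a direct product
  set B := gu Γ H {j | Γ.Adj v j} with hB
  have hcomm : ∀ (h : H v) (p : B), Commute (of Γ v h) p.1 := by
    intro h p
    have : B ≤ Subgroup.centralizer {of Γ v h} := by
      apply gu_le
      intro i hi x
      rw [Subgroup.mem_centralizer_iff]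
      intro y hy
      rw [Set.mem_singleton_iff.mp hy]
      exact of_comm hi h x
    exact Subgroup.mem_centralizer_iff.mp (this p.2) _ rfl
  obtain ⟨r, hr1, hr2⟩ := retv (Γ := Γ) (H := H) v
  have hrB : ∀ q ∈ B, r q = 1 := by
    have : B ≤ r.ker := by
      apply gu_le
      intro i hi x
      rw [MonoidHom.mem_ker]
      exact hr2 i (Ne.symm (SimpleGraph.Adj.ne hi)) x
    intro q hq
    exact MonoidHom.mem_ker.mp (this hq)
  let Φ : H v × B →* GraphProduct Γ H :=
    MonoidHom.noncommCoprod (of Γ v) B.subtype hcomm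
  have hΦ : Function.Bijective Φ := by
    constructor
    · rw [injective_iff_map_eq_one]
      rintro ⟨h, p⟩ hp
      have h1 : of Γ v h * p.1 = 1 := hp
      have h2 := congrArg r h1
      rw [map_mul, hr1, hrB _ p.2, mul_one, map_one] at h2
      rw [h2, map_one, one_mul] at h1
      exact Prod.ext h2 (Subtype.ext h1)
    · intro g
      have : g ∈ Φ.range := by
        apply mem_of_forall
        intro i x
        rcases hstar i with rfl | hi
        · exact ⟨(x, 1), by simp [Φ]⟩
        · exact ⟨(1, ⟨of Γ i x, of_mem_gu hi x⟩), by simp [Φ]⟩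
      exact this
  exact StronglyAccessible.congr hP (MulEquiv.ofBijective Φ hΦ).symm (hprod v B hlink)

end GraphProduct

/-- Products with finite groups. -/
theorem prod_finite {P : GrpClass} (hP : Nice P) {G : Type} [Group G] (K : Type) [Group K]
    (hK : Finite K) (h : StronglyAccessible P G) : StronglyAccessible P (G × K) := by
  obtain ⟨n, hn⟩ := h
  refine ⟨n, terminates_of_finite_ker hP n (MonoidHom.fst G K) ?_ ?_ hn⟩
  · intro g; exact ⟨(g, 1), rfl⟩
  · refine Finite.of_injective (fun x : (MonoidHom.fst G K).ker => x.1.2) ?_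
    intro x y hxy
    have h1 : x.1.1 = 1 := x.2
    have h2 : y.1.1 = 1 := y.2
    exact Subtype.ext (Prod.ext (h1.trans h2.symm) hxy)

/-- Products with groups of `𝒞`. -/
theorem prod_c {G : Type} [Group G] (h1 : StronglyAccessible CClass G)
    (h2 : StronglyAccessible FinClass G) (K : Type) [Group K] (hK : CClass K) :
    StronglyAccessible CClass (G × K) := by
  rcases hK with hK | ⟨z, hz, hfi⟩
  · exact prod_finite c_nice K hK h1
  · obtain ⟨m, hm0, hmn, hmfi⟩ := exists_normal z hz hfi
    have := hmn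
    have := hmfi
    have hfin : Finite (K ⧸ Subgroup.zpowers (z ^ m)) := inferInstance
    obtain ⟨n, hn⟩ := prod_finite fin_nice (K ⧸ Subgroup.zpowers (z ^ m)) hfin h2
    let π : G × K →* G × (K ⧸ Subgroup.zpowers (z ^ m)) :=
      MonoidHom.prodMap (MonoidHom.id G) (QuotientGroup.mk' (Subgroup.zpowers (z ^ m)))
    refine ⟨n + 2, terminates_of_cyclic_ker n π (1, z ^ m) ?_ ?_ ?_ hn⟩
    · rintro ⟨g, q⟩
      obtain ⟨k, rfl⟩ := QuotientGroup.mk_surjective q
      exact ⟨(g, k), rfl⟩
    · ext ⟨g, k⟩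
      rw [MonoidHom.mem_ker, Subgroup.mem_zpowers_iff]
      constructor
      · intro h
        have e1 : g = 1 := congrArg Prod.fst h
        have e2 : (QuotientGroup.mk k : K ⧸ Subgroup.zpowers (z ^ m)) = 1 := congrArg Prod.snd h
        rw [QuotientGroup.eq_one_iff] at e2
        obtain ⟨j, hj⟩ := Subgroup.mem_zpowers_iff.mp e2
        refine ⟨j, ?_⟩
        rw [Prod.pow_mk] at *
        exact Prod.ext (by simp [e1]) (by simpa using hj)
      · rintro ⟨j, hj⟩
        have e1 : (1 : G) ^ j = g := congrArg Prod.fst hj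
        have e2 : (z ^ m) ^ j = k := congrArg Prod.snd hj
        apply Prod.ext
        · change g = 1
          rw [← e1, one_zpow]
        · change (QuotientGroup.mk k : K ⧸ Subgroup.zpowers (z ^ m)) = 1
          rw [QuotientGroup.eq_one_iff, ← e2]
          exact Subgroup.zpow_mem _ (Subgroup.mem_zpowers _) j
    · intro hcon
      have h3 : IsOfFinOrder (z ^ m) := MonoidHom.isOfFinOrder (MonoidHom.snd G K) hcon
      obtain ⟨k, hk, hk1⟩ := isOfFinOrder_iff_pow_eq_one.mp h3
      rw [← zpow_natCast, ← zpow_mul] at hk1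
      rcases mul_eq_zero.mp (zpow_ne hz hk1) with h | h
      · exact hm0 h
      · omega

end Pool.Agent.Helper705_SA
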