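import Mathlib

set_option autoImplicit false

namespace Pool.Agent.Helper705_SA

/-- A class of groups. -/
abbrev GrpClass := ∀ (K : Type) [Group K], Prop

/-- The class of finite groups. -/
def FinClass : GrpClass := fun K _ => Finite K

/-- The class `𝒞` of groups that are finite or virtually infinite cyclic, i.e. contain an
infinite cyclic subgroup `⟨z⟩` of finite index. -/
def CClass : GrpClass := fun K _ =>
  Finite K ∨ ∃ z : K, ¬ IsOfFinOrder z ∧ (Subgroup.zpowers z).FiniteIndex

/-- A (nontrivial) decomposition of `G` over the class `P`, given by its Bass-Serre tree `T`: the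
group `G` acts on the tree `T` by automorphisms without inversions, with finite quotient graph
(finitely many orbits of vertices and of edges), all edge stabilisers belong to `P`, and `G` has
no global fixed point. The vertex groups of the decomposition are the stabilisers of the vertices
of `T`. -/
structure Splitting (P : GrpClass) (G : Type) [Group G] where
  V : Type
  [act : MulAction G V]
  T : SimpleGraph V
  isTree : T.IsTree
  adj_smul : ∀ (g : G) (v w : V), T.Adj v w → T.Adj (g • v) (g • w)
  no_inversion : ∀ (g : G) (v w : V), T.Adj v w → ¬ (g • v = w ∧ g • w = v)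
  finite_vertex_orbits : ∃ F : Finset V, ∀ v, ∃ g : G, g • v ∈ F
  finite_edge_orbits : ∃ E : Finset (V × V), ∀ v w, T.Adj v w → ∃ g : G, (g • v, g • w) ∈ E
  edge_mem : ∀ v w, T.Adj v w → P ↥(MulAction.stabilizer G v ⊓ MulAction.stabilizer G w)
  no_fixed_vertex : ∀ v : V, ∃ g : G, g • v ≠ v

attribute [instance] Splitting.act

/-- `TerminatesIn P n G`: there is a hierarchy for `G` over the class `P` which terminates after
at most `n` stages. A group without decomposition over `P` is kept, every other group is replaced
by the vertex groups of one of its decompositions over `P`. -/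
def TerminatesIn (P : GrpClass) : ℕ → (G : Type) → [Group G] → Prop
  | 0, G, _ => ¬ Nonempty (Splitting P G)
  | n + 1, G, _ => ¬ Nonempty (Splitting P G) ∨
      ∃ S : Splitting P G, ∀ v : S.V, TerminatesIn P n (MulAction.stabilizer G v)

/-- `G` is strongly accessible over the class `P`: at least one hierarchy for `G` over `P`
terminates. -/
def StronglyAccessible (P : GrpClass) (G : Type) [Group G] : Prop := ∃ n, TerminatesIn P n G

/-- The commutators `[x, y]` with `x ∈ H i`, `y ∈ H j` and `i` adjacent to `j` in `Γ`. -/
def commRel {ι : Type} (Γ : SimpleGraph ι) (H : ι → Type) [∀ i, Group (H i)] :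
    Set (Monoid.CoprodI H) :=
  {w | ∃ (i j : ι) (x : H i) (y : H j), Γ.Adj i j ∧
    w = Monoid.CoprodI.of x * Monoid.CoprodI.of y * (Monoid.CoprodI.of x)⁻¹ *
      (Monoid.CoprodI.of y)⁻¹}

/-- The graph product of the groups `H i` over the simple graph `Γ`: the free product of the
groups `H i` modulo the relations that elements of `H i` and `H j` commute whenever `i` and `j`
are adjacent in `Γ`. -/
def GraphProduct {ι : Type} (Γ : SimpleGraph ι) (H : ι → Type) [∀ i, Group (H i)] : Type :=
  Monoid.CoprodI H ⧸ Subgroup.normalClosure (commRel Γ H)

instance {ι : Type} (Γ : SimpleGraph ι) (H : ι → Type) [∀ i, Group (H i)] :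
    Group (GraphProduct Γ H) :=
  inferInstanceAs (Group (Monoid.CoprodI H ⧸ Subgroup.normalClosure (commRel Γ H)))

end Pool.Agent.Helper705_SA
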