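import Pool.Agent.Helper705_SA.Amalg

set_option autoImplicit false

namespace Pool.Agent.Helper705_SA

namespace GraphProduct

variable {ι : Type} {Γ : SimpleGraph ι} {H : ι → Type} [∀ i, Group (H i)]

/-- The canonical homomorphism of a vertex group. -/
def of (Γ : SimpleGraph ι) (i : ι) : H i →* GraphProduct Γ H :=
  (QuotientGroup.mk' (Subgroup.normalClosure (commRel Γ H))).comp Monoid.CoprodI.of

theorem of_comm {i j : ι} (h : Γ.Adj i j) (x : H i) (y : H j) :
    of Γ i x * of Γ j y = of Γ j y * of Γ i x := by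
  have h1 : Monoid.CoprodI.of x * Monoid.CoprodI.of y * (Monoid.CoprodI.of x)⁻¹ *
      (Monoid.CoprodI.of y)⁻¹ ∈ Subgroup.normalClosure (commRel Γ H) :=
    Subgroup.subset_normalClosure ⟨i, j, x, y, h, rfl⟩
  have h2 : (QuotientGroup.mk' (Subgroup.normalClosure (commRel Γ H)))
    (Monoid.CoprodI.of x * Monoid.CoprodI.of y * (Monoid.CoprodI.of x)⁻¹ *
      (Monoid.CoprodI.of y)⁻¹) = 1 := (QuotientGroup.eq_one_iff _).mpr h1
  rw [map_mul, map_mul, map_mul, map_inv, map_inv] at h2
  change of Γ i x * of Γ j y * (of Γ i x)⁻¹ * (of Γ j y)⁻¹ = 1 at h2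
  rw [mul_inv_eq_one, mul_inv_eq_iff_eq_mul] at h2
  exact h2

/-- The universal property of the graph product. -/
def lift {K : Type} [Group K] (f : ∀ i, H i →* K)
    (hf : ∀ i j, Γ.Adj i j → ∀ x y, f i x * f j y = f j y * f i x) : GraphProduct Γ H →* K :=
  QuotientGroup.lift (Subgroup.normalClosure (commRel Γ H)) (Monoid.CoprodI.lift f) (by
    have : Subgroup.normalClosure (commRel Γ H) ≤ (Monoid.CoprodI.lift f).ker := by
      apply Subgroup.normalClosure_le_normal
      rintro _ ⟨i, j, x, y, hij, rfl⟩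
      rw [SetLike.mem_coe, MonoidHom.mem_ker, map_mul, map_mul, map_mul, map_inv, map_inv,
        Monoid.CoprodI.lift_of, Monoid.CoprodI.lift_of, hf i j hij]
      group
    intro x hx
    exact this hx)

@[simp] theorem lift_of {K : Type} [Group K] (f : ∀ i, H i →* K)
    (hf : ∀ i j, Γ.Adj i j → ∀ x y, f i x * f j y = f j y * f i x) (i : ι) (x : H i) :
    lift f hf (of Γ i x) = f i x := by
  change (Monoid.CoprodI.lift f) (Monoid.CoprodI.of x) = f i x
  rw [Monoid.CoprodI.lift_of]

/-- A subgroup containing all vertex groups is everything. -/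
theorem mem_of_forall (K : Subgroup (GraphProduct Γ H)) (h : ∀ i (x : H i), of Γ i x ∈ K)
    (g : GraphProduct Γ H) : g ∈ K := by
  obtain ⟨w, rfl⟩ := QuotientGroup.mk_surjective
    (s := Subgroup.normalClosure (commRel Γ H)) g
  have : w ∈ K.comap (QuotientGroup.mk' (Subgroup.normalClosure (commRel Γ H))) := by
    induction w using Monoid.CoprodI.induction_on with
    | one => exact Subgroup.one_mem _
    | of i x => exact h i x
    | mul x y hx hy => exact Subgroup.mul_mem _ hx hy
  exact this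

theorem hom_ext {K : Type} [Group K] {f g : GraphProduct Γ H →* K}
    (h : ∀ i (x : H i), f (of Γ i x) = g (of Γ i x)) (z : GraphProduct Γ H) : f z = g z :=
  mem_of_forall (MonoidHom.eqLocus f g) h z

/-- The homomorphism from the graph product over an induced subgraph. -/
def sub (Γ : SimpleGraph ι) (H : ι → Type) [∀ i, Group (H i)] (U : Set ι) :
    GraphProduct (Γ.induce U) (fun i : U => H i) →* GraphProduct Γ H :=
  lift (fun i => of Γ i.1) (fun i j hij x y => of_comm (Γ := Γ) (i := i.1) (j := j.1) hij x y)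

@[simp] theorem sub_of (U : Set ι) (i : U) (x : H i) :
    sub Γ H U (of (Γ.induce U) i x) = of Γ i.1 x :=
  lift_of (Γ := Γ.induce U) (H := fun i : U => H i) (fun i => of Γ i.1) _ i x

open Classical in
/-- The retraction onto the graph product over an induced subgraph. -/
noncomputable def ret (Γ : SimpleGraph ι) (H : ι → Type) [∀ i, Group (H i)] (U : Set ι) :
    GraphProduct Γ H →* GraphProduct (Γ.induce U) (fun i : U => H i) :=
  lift (fun i => if h : i ∈ U then of (Γ.induce U) (H := fun i : U => H i) ⟨i, h⟩ else 1) (by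
    intro i j hij x y
    by_cases hi : i ∈ U
    · by_cases hj : j ∈ U
      · rw [dif_pos hi, dif_pos hj]
        exact of_comm (Γ := Γ.induce U) (H := fun i : U => H i) (i := ⟨i, hi⟩) (j := ⟨j, hj⟩)
          hij x y
      · rw [dif_neg hj]; simp
    · rw [dif_neg hi]; simp)

theorem ret_of_mem (U : Set ι) {i : ι} (hi : i ∈ U) (x : H i) :
    ret Γ H U (of Γ i x) = of (Γ.induce U) (H := fun i : U => H i) ⟨i, hi⟩ x := by
  rw [ret, lift_of, dif_pos hi]

theorem ret_of_not_mem (U : Set ι) {i : ι} (hi : i ∉ U) (x : H i) :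
    ret Γ H U (of Γ i x) = 1 := by
  rw [ret, lift_of, dif_neg hi]; rfl

theorem ret_sub (U : Set ι) (z : GraphProduct (Γ.induce U) (fun i : U => H i)) :
    ret Γ H U (sub Γ H U z) = z := by
  have := hom_ext (Γ := Γ.induce U) (H := fun i : U => H i)
    (f := (ret Γ H U).comp (sub Γ H U)) (g := MonoidHom.id _) (by
      intro i x
      rw [MonoidHom.comp_apply, sub_of, ret_of_mem U i.2]
      rfl) z
  exact this

theorem sub_injective (U : Set ι) : Function.Injective (sub Γ H U) :=
  Function.LeftInverse.injective (ret_sub U)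

/-- The subgroup generated by the vertex groups with index in `U`. -/
def gu (Γ : SimpleGraph ι) (H : ι → Type) [∀ i, Group (H i)] (U : Set ι) :
    Subgroup (GraphProduct Γ H) := (sub Γ H U).range

theorem of_mem_gu {U : Set ι} {i : ι} (hi : i ∈ U) (x : H i) : of Γ i x ∈ gu Γ H U :=
  ⟨of (Γ.induce U) (H := fun i : U => H i) ⟨i, hi⟩ x, sub_of U ⟨i, hi⟩ x⟩

theorem gu_le {U : Set ι} {K : Subgroup (GraphProduct Γ H)}
    (h : ∀ i ∈ U, ∀ x : H i, of Γ i x ∈ K) : gu Γ H U ≤ K := by
  rintro _ ⟨z, rfl⟩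
  exact mem_of_forall (K.comap (sub Γ H U)) (fun i x => by
    rw [Subgroup.mem_comap, sub_of]; exact h i.1 i.2 x) z

/-- The subgroup is isomorphic to the graph product over the induced subgraph. -/
noncomputable def guEquiv (U : Set ι) :
    GraphProduct (Γ.induce U) (fun i : U => H i) ≃* gu Γ H U :=
  MonoidHom.ofInjective (sub_injective U)

/-- The idempotent endomorphism. -/
noncomputable def rho (Γ : SimpleGraph ι) (H : ι → Type) [∀ i, Group (H i)] (U : Set ι) :
    GraphProduct Γ H →* GraphProduct Γ H := (sub Γ H U).comp (ret Γ H U)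

theorem rho_of_mem (U : Set ι) {i : ι} (hi : i ∈ U) (x : H i) :
    rho Γ H U (of Γ i x) = of Γ i x := by
  rw [rho, MonoidHom.comp_apply, ret_of_mem U hi, sub_of]

theorem rho_of_not_mem (U : Set ι) {i : ι} (hi : i ∉ U) (x : H i) :
    rho Γ H U (of Γ i x) = 1 := by
  rw [rho, MonoidHom.comp_apply, ret_of_not_mem U hi, map_one]

theorem rho_mem (U : Set ι) (z : GraphProduct Γ H) : rho Γ H U z ∈ gu Γ H U :=
  ⟨ret Γ H U z, rfl⟩

theorem rho_eq (U : Set ι) {z : GraphProduct Γ H} (hz : z ∈ gu Γ H U) : rho Γ H U z = z := by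
  have : gu Γ H U ≤ MonoidHom.eqLocus (rho Γ H U) (MonoidHom.id _) :=
    gu_le (fun i hi x => rho_of_mem U hi x)
  exact this hz

theorem gu_inf (A B : Set ι) : gu Γ H A ⊓ gu Γ H B = gu Γ H (A ∩ B) := by
  apply le_antisymm
  · rintro z ⟨hA, hB⟩
    have h1 : rho Γ H A (rho Γ H B z) = z := by rw [rho_eq B hB, rho_eq A hA]
    have h2 : ∀ z, ((rho Γ H A).comp (rho Γ H B)) z = rho Γ H (A ∩ B) z := by
      apply hom_ext
      intro i x
      rw [MonoidHom.comp_apply]
      by_cases hiB : i ∈ B
      · rw [rho_of_mem B hiB]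
        by_cases hiA : i ∈ A
        · rw [rho_of_mem A hiA, rho_of_mem (A ∩ B) ⟨hiA, hiB⟩]
        · rw [rho_of_not_mem A hiA, rho_of_not_mem (A ∩ B) (fun h => hiA h.1)]
      · rw [rho_of_not_mem B hiB, map_one, rho_of_not_mem (A ∩ B) (fun h => hiB h.2)]
    have h3 := h2 z
    rw [MonoidHom.comp_apply, h1] at h3
    rw [h3]
    exact rho_mem _ _
  · apply gu_le
    rintro i ⟨hA, hB⟩ x
    exact ⟨of_mem_gu hA x, of_mem_gu hB x⟩

theorem isAmalgam (A B : Set ι) (hAB : ∀ i, i ∈ A ∨ i ∈ B)
    (hsep : ∀ i j, i ∉ B → j ∉ A → ¬ Γ.Adj i j) : IsAmalgam (gu Γ H A) (gu Γ H B) := by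
  classical
  constructor
  · rw [eq_top_iff]
    intro g _
    apply mem_of_forall
    intro i x
    rcases hAB i with hi | hi
    · exact Subgroup.mem_sup_left (of_mem_gu hi x)
    · exact Subgroup.mem_sup_right (of_mem_gu hi x)
  · intro K _ f g hfg
    let φ : ∀ i, H i →* K := fun i =>
      if h : i ∈ A then f.comp ((of Γ i).codRestrict (gu Γ H A) (fun x => of_mem_gu h x))
      else g.comp ((of Γ i).codRestrict (gu Γ H B)
        (fun x => of_mem_gu ((hAB i).resolve_left h) x))
    have hφA : ∀ i (h : i ∈ A) (x : H i), φ i x = f ⟨of Γ i x, of_mem_gu h x⟩ := by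
      intro i h x
      change (if h : i ∈ A then _ else _ : H i →* K) x = _
      rw [dif_pos h]; rfl
    have hφB : ∀ i (h : i ∈ B) (x : H i), φ i x = g ⟨of Γ i x, of_mem_gu h x⟩ := by
      intro i h x
      by_cases hA : i ∈ A
      · rw [hφA i hA]
        exact hfg _ _ _
      · change (if h : i ∈ A then _ else _ : H i →* K) x = _
        rw [dif_neg hA]; rfl
    have hcomm : ∀ i j, Γ.Adj i j → ∀ x y, φ i x * φ j y = φ j y * φ i x := by
      intro i j hij x y
      have hboth : (i ∈ A ∧ j ∈ A) ∨ (i ∈ B ∧ j ∈ B) := by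
        by_contra hcon
        push Not at hcon
        by_cases hiA : i ∈ A
        · have hjA := hcon.1 hiA
          have hjB := (hAB j).resolve_left hjA
          by_cases hiB : i ∈ B
          · exact hcon.2 hiB hjB
          · exact hsep i j hiB hjA hij
        · have hiB := (hAB i).resolve_left hiA
          have hjB := hcon.2 hiB
          exact hsep j i hjB hiA hij.symm
      rcases hboth with ⟨hi, hj⟩ | ⟨hi, hj⟩
      · rw [hφA i hi, hφA j hj, ← map_mul, ← map_mul]
        congr 1
        exact Subtype.ext (of_comm hij x y)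
      · rw [hφB i hi, hφB j hj, ← map_mul, ← map_mul]
        congr 1
        exact Subtype.ext (of_comm hij x y)
    have ext' : ∀ (U : Set ι) (Φ : GraphProduct Γ H →* K) (f : gu Γ H U →* K),
        (∀ i (hi : i ∈ U) (x : H i), Φ (of Γ i x) = f ⟨of Γ i x, of_mem_gu hi x⟩) →
        ∀ a : gu Γ H U, Φ a = f a := by
      intro U Φ f hf a
      have hle : gu Γ H U ≤ (MonoidHom.eqLocus (Φ.comp (gu Γ H U).subtype) f).map
          (gu Γ H U).subtype := by
        apply gu_le
        intro i hi x
        exact ⟨⟨of Γ i x, of_mem_gu hi x⟩, hf i hi x, rfl⟩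
      obtain ⟨b, hb, hba⟩ := hle a.2
      have : b = a := Subtype.ext hba
      rw [← this]
      exact hb
    refine ⟨lift φ hcomm, ext' A _ f ?_, ext' B _ g ?_⟩
    · intro i hi x
      rw [lift_of, hφA i hi]
    · intro i hi x
      rw [lift_of, hφB i hi]

end GraphProduct

end Pool.Agent.Helper705_SA
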