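import Pool.Agent.Helper705_SA.Split

set_option autoImplicit false

namespace Pool.Agent.Helper705_SA

open SimpleGraph Pool.Agent.Helper270.Tree

theorem conv_line {V : Type} {T : SimpleGraph V} (hT : T.IsTree) {L : ℤ → V} (hL : IsLine T L) :
    Conv T (Set.range L) := by
  have key : ∀ i j : ℤ, i ≤ j → ∀ z, T.dist (L i) z + T.dist z (L j) = T.dist (L i) (L j) →
      z ∈ Set.range L := by
    intro i j hij z hz
    have h1 := hL.dist hT i j
    have h2 := hL.dist hT i (i + T.dist (L i) z)
    have h3 := hL.dist hT (i + T.dist (L i) z) j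
    refine ⟨i + T.dist (L i) z, ?_⟩
    symm
    apply geod_unique hT hz
    · omega
    · rw [h2]; omega
  rintro _ ⟨i, rfl⟩ _ ⟨j, rfl⟩ z hz
  rcases le_total i j with hij | hij
  · exact key i j hij z hz
  · apply key j i hij z
    rw [dist_comm (u := L j) (v := z), dist_comm (u := z) (v := L i),
      dist_comm (u := L j) (v := L i)]
    omega

variable {P : GrpClass} {G : Type} [Group G]

/-- `G` preserves the line `L`. -/
def Preserves {V : Type} [MulAction G V] (G' : Subgroup G) (L : ℤ → V) : Prop :=
  ∀ p ∈ G', (∃ c, ∀ i, p • L i = L (c + i)) ∨ (∃ c, ∀ i, p • L i = L (c - i))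

/-- Restrict a splitting to an invariant line. -/
theorem Splitting.toLine (S : Splitting P G) {L : ℤ → S.V} (hL : IsLine S.T L)
    (hpres : Preserves (⊤ : Subgroup G) L) :
    ∃ S' : Splitting P G, ∀ v : S'.V, ∃ i : ℤ,
      MulAction.stabilizer G v = MulAction.stabilizer G (L i) := by
  have h := S.treeAct
  obtain ⟨S', hS'⟩ := exists_desc (P := P) h (Set.range L) (conv_line S.isTree hL) ⟨L 0, 0, rfl⟩
    (MonoidHom.id G) Function.surjective_id (by
      rintro g _ ⟨i, rfl⟩
      rcases hpres g (Subgroup.mem_top g) with ⟨c, hc⟩ | ⟨c, hc⟩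
      · exact ⟨_, (hc i).symm⟩
      · exact ⟨_, (hc i).symm⟩) (by
      intro g hg x _
      have : g = 1 := by simpa using hg
      rw [this, one_smul]) (by
      obtain ⟨A, hA⟩ := S.finite_vertex_orbits
      exact ⟨A, fun v _ => hA v⟩) (by
      obtain ⟨A, hA⟩ := S.finite_edge_orbits
      exact ⟨A, fun v _ w _ hvw => hA v w hvw⟩) (by
      intro v _ w _ hvw
      rw [Subgroup.map_id]
      exact S.edge_mem v w hvw) (by
      intro v _
      exact S.no_fixed_vertex v)
  refine ⟨S', fun v => ?_⟩
  obtain ⟨x, ⟨i, rfl⟩, hx⟩ := hS' v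
  exact ⟨i, by rw [hx, Subgroup.map_id]⟩

/-- The stabiliser of a vertex of an invariant line belongs to the class. -/
theorem stab_line_mem (hP : Nice P) (S : Splitting P G) {L : ℤ → S.V} (hL : IsLine S.T L)
    (hpres : Preserves (⊤ : Subgroup G) L) (i : ℤ) : P ↥(MulAction.stabilizer G (L i)) := by
  have hE := S.edge_mem _ _ (hL.adj i)
  have hfin : (MulAction.stabilizer ↥(MulAction.stabilizer G (L i)) (L (i + 1))).FiniteIndex := by
    rw [Subgroup.finiteIndex_iff_finite_quotient]
    suffices hs : (MulAction.orbit ↥(MulAction.stabilizer G (L i)) (L (i + 1))).Finite by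
      have := hs.to_subtype
      exact Finite.of_equiv _ (MulAction.orbitEquivQuotientStabilizer
        ↥(MulAction.stabilizer G (L i)) (L (i + 1)))
    apply Set.Finite.subset (Set.Finite.insert (L (i + 1)) (Set.finite_singleton (L (i - 1))))
    rintro _ ⟨p, rfl⟩
    have hp := p.2
    rw [MulAction.mem_stabilizer_iff] at hp
    change p.1 • L (i + 1) ∈ _
    rcases hpres p.1 (Subgroup.mem_top _) with ⟨c, hc⟩ | ⟨c, hc⟩
    · have h1 := hL.injective S.isTree ((hc i).symm.trans hp)
      left
      rw [hc]; congr 1; omega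
    · have h1 := hL.injective S.isTree ((hc i).symm.trans hp)
      right
      rw [hc, Set.mem_singleton_iff]; congr 1; omega
  apply hP.ovr _ hfin
  let f : ↥(MulAction.stabilizer ↥(MulAction.stabilizer G (L i)) (L (i + 1))) →*
      ↥(MulAction.stabilizer G (L i) ⊓ MulAction.stabilizer G (L (i + 1))) :=
    { toFun := fun x => ⟨x.1.1, x.1.2, x.2⟩
      map_one' := rfl
      map_mul' := fun _ _ => rfl }
  refine hP.inj f ?_ hE
  intro x y hxy
  have h1 : (f x).1 = (f y).1 := by rw [hxy]
  exact Subtype.ext (Subtype.ext h1)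

/-- A finite group has no splitting. -/
theorem not_splitting_of_finite [Finite G] : ¬ Nonempty (Splitting P G) := by
  rintro ⟨S⟩
  obtain ⟨v, hv⟩ := exists_fixed_of_finite S.treeAct
  obtain ⟨g, hg⟩ := S.no_fixed_vertex v
  exact hg (hv g)

theorem fg_of_finiteIndex (B : Subgroup G) (hB : B.FiniteIndex) (hfg : B.FG) : Group.FG G := by
  classical
  obtain ⟨s, hs⟩ := hfg
  have := hB
  have : Finite (G ⧸ B) := inferInstance
  have := Fintype.ofFinite (G ⧸ B)
  rw [Group.fg_def]
  refine ⟨s ∪ (Finset.univ : Finset (G ⧸ B)).image Quotient.out, ?_⟩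
  have hle : B ≤ Subgroup.closure
      (↑(s ∪ (Finset.univ : Finset (G ⧸ B)).image Quotient.out) : Set G) := by
    refine hs.symm.le.trans ?_
    apply Subgroup.closure_mono
    intro x hx
    simp only [Finset.coe_union, Set.mem_union]
    exact Or.inl hx
  rw [eq_top_iff]
  intro g _
  have h1 : (QuotientGroup.mk g : G ⧸ B).out ∈
      Subgroup.closure (↑(s ∪ (Finset.univ : Finset (G ⧸ B)).image Quotient.out) : Set G) := by
    apply Subgroup.subset_closure
    simp
  have h2 : ((QuotientGroup.mk g : G ⧸ B).out)⁻¹ * g ∈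
      Subgroup.closure (↑(s ∪ (Finset.univ : Finset (G ⧸ B)).image Quotient.out) : Set G) := by
    have h3 : ((QuotientGroup.mk g : G ⧸ B).out)⁻¹ * g ∈ B := by
      rw [← QuotientGroup.eq]
      exact QuotientGroup.out_eq' _
    exact hle h3
  have := Subgroup.mul_mem _ h1 h2
  rwa [mul_inv_cancel_left] at this

/-- A group with an element generating a normal subgroup and acting hyperbolically preserves the
axis. -/
theorem preserves_axis {V : Type} [MulAction G V] {T : SimpleGraph V} (h : TreeAct G T) {z : G}
    (hnorm : (Subgroup.zpowers z).Normal) {L : ℤ → V} {l : ℕ} (hax : IsAxis T z L l) :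
    Preserves (⊤ : Subgroup G) L := by
  intro p _
  apply h.normal_axis hax
  have h1 : p⁻¹ * z * p ∈ Subgroup.zpowers z := by
    have := hnorm.conj_mem z (Subgroup.mem_zpowers z) p⁻¹
    rwa [inv_inv] at this
  obtain ⟨k, hk⟩ := Subgroup.mem_zpowers_iff.mp h1
  rw [← hk, ← zpow_add_one, ← zpow_one_add, add_comm]

/-- Groups in `𝒞` and finite groups are strongly accessible. -/
theorem terminates_of_c (hG : CClass G) : TerminatesIn P 1 G := by
  by_cases hS : Nonempty (Splitting P G)
  · obtain ⟨S⟩ := hS
    have h := S.treeAct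
    rcases hG with hG | ⟨z, hz, hfi⟩
    · exact absurd ⟨S⟩ not_splitting_of_finite
    have hfg : Group.FG G := fg_of_finiteIndex _ hfi ⟨{z}, by
      rw [Finset.coe_singleton, Subgroup.zpowers_eq_closure]⟩
    obtain ⟨g, hg⟩ := h.exists_hyperbolic hfg S.no_fixed_vertex
    have hgo := hyperbolic_not_isOfFinOrder h hg
    have hgfi := CClass.zpowers (Or.inr ⟨z, hz, hfi⟩) hgo
    obtain ⟨m, hm0, hmn, hmfi⟩ := exists_normal g hgo hgfi
    obtain ⟨L, l, hax⟩ := h.exists_axis hg
    have hgm : ∀ v : S.V, (g ^ m) • v ≠ v := by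
      intro v hv
      -- the orbit of `v` under `g` is infinite
      obtain ⟨i, hi⟩ := hax.line.exists_proj h.isTree v
      have h1 := hax.smul_zpow m
      have h3 := hi (i + m * l)
      have h4 : S.T.dist v (L (i + m * l)) = S.T.dist v (L i) := by
        rw [← h1 i]
        conv_lhs => rw [← hv]
        exact h.dist_smul _ _ _
      have h5 : (i + m * l - i).natAbs = 0 := by omega
      have h6 : m * (l : ℤ) = 0 := by omega
      rcases mul_eq_zero.mp h6 with h7 | h7
      · exact hm0 h7
      · have := hax.pos; omega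
    obtain ⟨L', l', hax'⟩ := h.exists_axis hgm
    obtain ⟨S', hS'⟩ := S.toLine hax'.line (preserves_axis h hmn hax')
    right
    refine ⟨S', fun v => ?_⟩
    obtain ⟨i, hi⟩ := hS' v
    -- the vertex group is finite
    have hfinB : Finite ↥(MulAction.stabilizer G v) := by
      rw [hi]
      have hinj : Function.Injective
          (fun b : ↥(MulAction.stabilizer G (L' i)) => (QuotientGroup.mk b.1 :
            G ⧸ Subgroup.zpowers (g ^ m))) := by
        intro a b hab
        have hab' : (QuotientGroup.mk a.1 : G ⧸ Subgroup.zpowers (g ^ m)) =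
          QuotientGroup.mk b.1 := hab
        rw [QuotientGroup.eq] at hab'
        obtain ⟨k, hk⟩ := Subgroup.mem_zpowers_iff.mp hab'
        have h1 : (a.1⁻¹ * b.1) • L' i = L' i := by
          have := Subgroup.mul_mem _ (Subgroup.inv_mem _ a.2) b.2
          exact this
        rw [← hk, hax'.smul_zpow] at h1
        have h2 := hax'.line.injective h.isTree h1
        have h3 : k * (l' : ℤ) = 0 := by omega
        have h4 : k = 0 := by
          rcases mul_eq_zero.mp h3 with h4 | h4
          · exact h4
          · have := hax'.pos; omega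
        rw [h4, zpow_zero] at hk
        exact Subtype.ext (inv_mul_eq_one.mp hk.symm)
      have := hmfi
      exact Finite.of_injective _ hinj
    exact not_splitting_of_finite
  · exact Or.inl hS

end Pool.Agent.Helper705_SA
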