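import Pool.Agent.Helper705_SA.Line

set_option autoImplicit false

namespace Pool.Agent.Helper705_SA

open SimpleGraph Pool.Agent.Helper270.Tree

variable {P : GrpClass}

theorem TreeAct.sub {G V : Type} [Group G] [MulAction G V] {T : SimpleGraph V}
    (h : TreeAct G T) (N : Subgroup G) : TreeAct N T :=
  ⟨h.isTree, fun g v w hvw => h.adj g.1 v w hvw, fun g v w hvw => h.noInv g.1 v w hvw⟩

theorem fixSet_invariant {G V : Type} [Group G] [MulAction G V] (N : Subgroup G) (hN : N.Normal)
    (g : G) (x : V) (hx : x ∈ FixSet V (N : Set G)) : g • x ∈ FixSet V (N : Set G) := by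
  intro n hn
  have h1 : g⁻¹ * n * g ∈ N := by
    have := hN.conj_mem n hn g⁻¹
    rwa [inv_inv] at this
  have h2 := hx _ h1
  rw [mul_smul, mul_smul, inv_smul_eq_iff] at h2
  exact h2

/-- The splitting of `G` restricted to the fixed vertices of the kernel `N` of `π`. -/
theorem Splitting.descend {G Q : Type} [Group G] [Group Q] {P' : GrpClass} (S : Splitting P G)
    (π : G →* Q) (hπ : Function.Surjective π) (hne : (FixSet S.V (π.ker : Set G)).Nonempty)
    (hE : ∀ v w, S.T.Adj v w → v ∈ FixSet S.V (π.ker : Set G) → w ∈ FixSet S.V (π.ker : Set G) →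
      P' ↥((MulAction.stabilizer G v ⊓ MulAction.stabilizer G w).map π)) :
    Nonempty (Splitting P' Q) := by
  obtain ⟨S', _⟩ := exists_desc (P := P') S.treeAct (FixSet S.V (π.ker : Set G))
    (fixSet_conv S.treeAct _) hne π hπ (fun g x hx => fixSet_invariant π.ker inferInstance g x hx)
    (fun g hg x hx => hx g hg) (by
      obtain ⟨A, hA⟩ := S.finite_vertex_orbits
      exact ⟨A, fun v _ => hA v⟩) (by
      obtain ⟨A, hA⟩ := S.finite_edge_orbits
      exact ⟨A, fun v _ w _ hvw => hA v w hvw⟩) (by
      intro v hv w hw hvw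
      exact hE v w hvw hv hw) (by
      intro v _
      exact S.no_fixed_vertex v)
  exact ⟨S'⟩

/-- Restriction of a homomorphism to the preimage of a subgroup. -/
theorem comap_surj {G Q : Type} [Group G] [Group Q] (π : G →* Q) (hπ : Function.Surjective π)
    (B : Subgroup Q) : Function.Surjective (π.subgroupComap B) := by
  rintro ⟨y, hy⟩
  obtain ⟨x, rfl⟩ := hπ y
  exact ⟨⟨x, hy⟩, rfl⟩

theorem comap_ker_finite {G Q : Type} [Group G] [Group Q] (π : G →* Q) (hk : Finite π.ker)
    (B : Subgroup Q) : Finite (π.subgroupComap B).ker := by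
  refine Finite.of_injective (fun x : (π.subgroupComap B).ker => (⟨x.1.1, ?_⟩ : π.ker)) ?_
  · have := x.2
    rw [MonoidHom.mem_ker] at this ⊢
    exact congrArg Subtype.val this
  · intro x y hxy
    have : x.1.1 = y.1.1 := by simpa using hxy
    exact Subtype.ext (Subtype.ext this)

theorem map_ker_finite {G Q : Type} [Group G] [Group Q] (π : G →* Q) (hk : Finite π.ker)
    (B : Subgroup G) : Finite (π.subgroupMap B).ker := by
  refine Finite.of_injective (fun x : (π.subgroupMap B).ker => (⟨x.1.1, ?_⟩ : π.ker)) ?_
  · have := x.2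
    rw [MonoidHom.mem_ker] at this ⊢
    exact congrArg Subtype.val this
  · intro x y hxy
    have : x.1.1 = y.1.1 := by simpa using hxy
    exact Subtype.ext (Subtype.ext this)

/-- Extensions with finite kernel. -/
theorem terminates_of_finite_ker (hP : Nice P) (n : ℕ) : ∀ {G Q : Type} [Group G] [Group Q]
    (π : G →* Q), Function.Surjective π → Finite π.ker →
      TerminatesIn P n Q → TerminatesIn P n G := by
  have base : ∀ {G Q : Type} [Group G] [Group Q]
    (π : G →* Q), Function.Surjective π → Finite π.ker →
      ¬ Nonempty (Splitting P Q) → ¬ Nonempty (Splitting P G) := by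
    rintro G Q _ _ π hπ hk h ⟨S⟩
    apply h
    obtain ⟨v, hv⟩ := exists_fixed_of_finite (TreeAct.sub S.treeAct π.ker)
    refine S.descend π hπ ⟨v, fun a ha => hv ⟨a, ha⟩⟩ ?_
    intro v w hvw _ _
    exact hP.quot (π.subgroupMap _) (map_ker_finite π hk _)
      (π.subgroupMap_surjective _) (S.edge_mem v w hvw)
  induction n with
  | zero => intro G Q _ _ π hπ hk h; exact base π hπ hk h
  | succ n ih =>
    intro G Q _ _ π hπ hk h
    rcases h with h | ⟨S, hS⟩
    · exact Or.inl (base π hπ hk h)
    · right
      have hE : ∀ v w, S.T.Adj v w →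
          P ↥((MulAction.stabilizer Q v ⊓ MulAction.stabilizer Q w).comap π) := by
        intro v w hvw
        exact hP.ext (π.subgroupComap _) (comap_ker_finite π hk _) (S.edge_mem v w hvw)
      have key : ∀ v : S.V, TerminatesIn P n ↥((MulAction.stabilizer Q v).comap π) :=
        fun v => ih (π.subgroupComap _) (comap_surj π hπ _) (comap_ker_finite π hk _) (hS v)
      exact ⟨S.pull π hπ hE, key⟩

/-- Extensions with infinite cyclic kernel: if `G / ⟨z⟩` is strongly accessible over finite
groups, then `G` is strongly accessible over `𝒞`. -/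
theorem terminates_of_cyclic_ker (n : ℕ) : ∀ {G Q : Type} [Group G] [Group Q]
    (π : G →* Q) (z : G), Function.Surjective π → π.ker = Subgroup.zpowers z →
      ¬ IsOfFinOrder z → TerminatesIn FinClass n Q → TerminatesIn CClass (n + 2) G := by
  have base : ∀ {G Q : Type} [Group G] [Group Q] (π : G →* Q) (z : G), Function.Surjective π →
      π.ker = Subgroup.zpowers z → ¬ IsOfFinOrder z →
      ¬ Nonempty (Splitting FinClass Q) → TerminatesIn CClass 2 G := by
    intro G Q _ _ π z hπ hk hz h
    by_cases hS : Nonempty (Splitting CClass G)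
    swap
    · exact Or.inl hS
    obtain ⟨S⟩ := hS
    by_cases hell : ∃ v : S.V, z • v = v
    · -- elliptic
      exfalso
      apply h
      obtain ⟨v, hv⟩ := hell
      refine S.descend π hπ ⟨v, ?_⟩ ?_
      · intro a ha
        rw [hk] at ha
        obtain ⟨k, rfl⟩ := Subgroup.mem_zpowers_iff.mp ha
        have : z ∈ MulAction.stabilizer G v := hv
        exact Subgroup.zpow_mem _ this k
      · intro v w hvw hv hw
        have hzmem : z ∈ MulAction.stabilizer G v ⊓ MulAction.stabilizer G w := by
          have hzk : z ∈ (π.ker : Set G) := by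
            rw [hk]; exact Subgroup.mem_zpowers z
          exact ⟨hv z hzk, hw z hzk⟩
        set E := MulAction.stabilizer G v ⊓ MulAction.stabilizer G w with hEdef
        have hE : CClass E := S.edge_mem v w hvw
        have hz' : ¬ IsOfFinOrder (⟨z, hzmem⟩ : E) := by
          intro hcon
          exact hz (MonoidHom.isOfFinOrder E.subtype hcon)
        have hfi := CClass.zpowers hE hz'
        have hfin : Finite (E ⧸ Subgroup.zpowers (⟨z, hzmem⟩ : E)) := by
          have := hfi
          infer_instance
        -- `E.map π` is a quotient of `E / ⟨z⟩`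
        have hsurj : Function.Surjective (fun q : E ⧸ Subgroup.zpowers (⟨z, hzmem⟩ : E) =>
            (⟨π (Quotient.out q).1, Subgroup.mem_map_of_mem π (Quotient.out q).2⟩ :
              ↥(E.map π))) := by
          rintro ⟨y, hy⟩
          obtain ⟨x, hx, rfl⟩ := Subgroup.mem_map.mp hy
          refine ⟨QuotientGroup.mk ⟨x, hx⟩, ?_⟩
          apply Subtype.ext
          change π (Quotient.out (QuotientGroup.mk ⟨x, hx⟩ :
            E ⧸ Subgroup.zpowers (⟨z, hzmem⟩ : E))).1 = π x
          have h1 : (Quotient.out (QuotientGroup.mk ⟨x, hx⟩ :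
            E ⧸ Subgroup.zpowers (⟨z, hzmem⟩ : E)))⁻¹ * ⟨x, hx⟩ ∈
              Subgroup.zpowers (⟨z, hzmem⟩ : E) := by
            rw [← QuotientGroup.eq]
            exact QuotientGroup.out_eq' _
          obtain ⟨k, hk'⟩ := Subgroup.mem_zpowers_iff.mp h1
          have h2 := congrArg (fun e : E => π e.1) hk'
          simp only [Subgroup.coe_zpow, Subgroup.coe_mul, Subgroup.coe_inv, map_mul, map_inv,
            map_zpow] at h2
          have h3 : π z = 1 := by
            rw [← MonoidHom.mem_ker, hk]; exact Subgroup.mem_zpowers z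
          rw [h3, one_zpow] at h2
          exact (inv_mul_eq_one.mp h2.symm)
        exact Finite.of_surjective _ hsurj
    · -- hyperbolic
      push Not at hell
      obtain ⟨L, l, hax⟩ := S.treeAct.exists_axis hell
      have hnorm : (Subgroup.zpowers z).Normal := by rw [← hk]; infer_instance
      have hpres := preserves_axis S.treeAct hnorm hax
      obtain ⟨S', hS'⟩ := S.toLine hax.line hpres
      right
      refine ⟨S', fun v => ?_⟩
      obtain ⟨i, hi⟩ := hS' v
      rw [hi]
      exact terminates_of_c (stab_line_mem c_nice S hax.line hpres i)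
  induction n with
  | zero => intro G Q _ _ π z hπ hk hz h; exact base π z hπ hk hz h
  | succ n ih =>
    intro G Q _ _ π z hπ hk hz h
    rcases h with h | ⟨S, hS⟩
    · exact TerminatesIn.mono (by omega) (base π z hπ hk hz h)
    · right
      have hmem : ∀ B : Subgroup Q, z ∈ B.comap π := by
        intro B
        have h3 : π z = 1 := by
          rw [← MonoidHom.mem_ker, hk]; exact Subgroup.mem_zpowers z
        rw [Subgroup.mem_comap, h3]
        exact B.one_mem
      have hker : ∀ B : Subgroup Q, (π.subgroupComap B).ker =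
          Subgroup.zpowers (⟨z, hmem B⟩ : ↥(B.comap π)) := by
        intro B
        ext x
        rw [MonoidHom.mem_ker, Subgroup.mem_zpowers_iff]
        constructor
        · intro hx
          have h1 : x.1 ∈ π.ker := MonoidHom.mem_ker.mpr (congrArg Subtype.val hx)
          rw [hk] at h1
          obtain ⟨k, hk'⟩ := Subgroup.mem_zpowers_iff.mp h1
          exact ⟨k, Subtype.ext hk'⟩
        · rintro ⟨k, rfl⟩
          apply Subtype.ext
          have h1 : z ^ k ∈ π.ker := by
            rw [hk]; exact Subgroup.zpow_mem _ (Subgroup.mem_zpowers z) k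
          exact h1
      have hord : ∀ B : Subgroup Q, ¬ IsOfFinOrder (⟨z, hmem B⟩ : ↥(B.comap π)) := by
        intro B hcon
        exact hz (MonoidHom.isOfFinOrder (B.comap π).subtype hcon)
      have hE : ∀ v w, S.T.Adj v w →
          CClass ↥((MulAction.stabilizer Q v ⊓ MulAction.stabilizer Q w).comap π) := by
        intro v w hvw
        set B := MulAction.stabilizer Q v ⊓ MulAction.stabilizer Q w with hB
        have hBfin : Finite B := S.edge_mem v w hvw
        refine Or.inr ⟨⟨z, hmem B⟩, hord B, ?_⟩
        rw [← hker B, Subgroup.finiteIndex_iff_finite_quotient]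
        exact Finite.of_injective _ (QuotientGroup.kerLift_injective (π.subgroupComap B))
      have key : ∀ v : S.V, TerminatesIn CClass (n + 2) ↥((MulAction.stabilizer Q v).comap π) :=
        fun v => ih (π.subgroupComap _) ⟨z, hmem _⟩ (comap_surj π hπ _) (hker _) (hord _) (hS v)
      exact ⟨S.pull π hπ hE, key⟩

end Pool.Agent.Helper705_SA
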