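import Pool.Agent.Helper705_SA.TreeSets

set_option autoImplicit false

namespace Pool.Agent.Helper705_SA

open SimpleGraph Pool.Agent.Helper270.Tree

variable {P P' : GrpClass} {G Q : Type} [Group G] [Group Q]

theorem Splitting.treeAct (S : Splitting P G) : TreeAct G S.T :=
  ⟨S.isTree, S.adj_smul, S.no_inversion⟩

/-- Pull back a splitting along a surjective homomorphism. -/
def Splitting.pull (S : Splitting P Q) (π : G →* Q) (hπ : Function.Surjective π)
    (hE : ∀ v w, S.T.Adj v w →
      P' ↥((MulAction.stabilizer Q v ⊓ MulAction.stabilizer Q w).comap π)) : Splitting P' G where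
  V := S.V
  act := MulAction.compHom S.V π
  T := S.T
  isTree := S.isTree
  adj_smul g v w h := S.adj_smul (π g) v w h
  no_inversion g v w h := S.no_inversion (π g) v w h
  finite_vertex_orbits := by
    obtain ⟨F, hF⟩ := S.finite_vertex_orbits
    refine ⟨F, fun v => ?_⟩
    obtain ⟨q, hq⟩ := hF v
    obtain ⟨g, rfl⟩ := hπ q
    exact ⟨g, hq⟩
  finite_edge_orbits := by
    obtain ⟨E, hE⟩ := S.finite_edge_orbits
    refine ⟨E, fun v w h => ?_⟩
    obtain ⟨q, hq⟩ := hE v w h
    obtain ⟨g, rfl⟩ := hπ q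
    exact ⟨g, hq⟩
  edge_mem := hE
  no_fixed_vertex v := by
    obtain ⟨q, hq⟩ := S.no_fixed_vertex v
    obtain ⟨g, rfl⟩ := hπ q
    exact ⟨g, hq⟩

/-- The action induced on a subset of a `G`-set by a quotient of `G`. -/
@[reducible] noncomputable def descAction {V : Type} [MulAction G V] (F : Set V) (π : G →* Q)
    (hπ : Function.Surjective π) (hinv : ∀ (g : G), ∀ x ∈ F, g • x ∈ F)
    (hker : ∀ g ∈ π.ker, ∀ x ∈ F, g • x = x) : MulAction Q F where
  smul q x := ⟨Function.surjInv hπ q • x.1, hinv _ _ x.2⟩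
  one_smul x := by
    apply Subtype.ext
    change Function.surjInv hπ 1 • x.1 = x.1
    exact hker _ (MonoidHom.mem_ker.mpr (Function.surjInv_eq hπ 1)) _ x.2
  mul_smul p q x := by
    apply Subtype.ext
    change Function.surjInv hπ (p * q) • x.1 =
      Function.surjInv hπ p • (Function.surjInv hπ q • x.1)
    rw [← mul_smul]
    have h : ((Function.surjInv hπ p * Function.surjInv hπ q)⁻¹ * Function.surjInv hπ (p * q)) ∈
        π.ker := by
      rw [MonoidHom.mem_ker, map_mul, map_inv, map_mul, Function.surjInv_eq hπ,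
        Function.surjInv_eq hπ, Function.surjInv_eq hπ, inv_mul_cancel]
    have h2 := hker _ h _ x.2
    rw [mul_smul, inv_smul_eq_iff] at h2
    exact h2

theorem descAction_apply {V : Type} [MulAction G V] (F : Set V) (π : G →* Q)
    (hπ : Function.Surjective π) (hinv : ∀ (g : G), ∀ x ∈ F, g • x ∈ F)
    (hker : ∀ g ∈ π.ker, ∀ x ∈ F, g • x = x) (g : G) (x : F) :
    ((descAction F π hπ hinv hker).smul (π g) x).1 = g • x.1 := by
  change Function.surjInv hπ (π g) • x.1 = g • x.1
  have h : (g⁻¹ * Function.surjInv hπ (π g)) ∈ π.ker := by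
    rw [MonoidHom.mem_ker, map_mul, map_inv, Function.surjInv_eq hπ, inv_mul_cancel]
  have h2 := hker _ h _ x.2
  rw [mul_smul, inv_smul_eq_iff] at h2
  exact h2

/-- Restrict a tree action to an invariant convex subset, and descend to a quotient group whose
kernel acts trivially there. -/
theorem exists_desc {V : Type} [MulAction G V] {T : SimpleGraph V} (h : TreeAct G T)
    (F : Set V) (hF : Conv T F) (hF0 : F.Nonempty) (π : G →* Q)
    (hπ : Function.Surjective π) (hinv : ∀ (g : G), ∀ x ∈ F, g • x ∈ F)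
    (hker : ∀ g ∈ π.ker, ∀ x ∈ F, g • x = x)
    (hvo : ∃ A : Finset V, ∀ v ∈ F, ∃ g : G, g • v ∈ A)
    (heo : ∃ E : Finset (V × V), ∀ v ∈ F, ∀ w ∈ F, T.Adj v w → ∃ g : G, (g • v, g • w) ∈ E)
    (hE : ∀ v ∈ F, ∀ w ∈ F, T.Adj v w →
      P ↥((MulAction.stabilizer G v ⊓ MulAction.stabilizer G w).map π))
    (hnf : ∀ v ∈ F, ∃ g : G, g • v ≠ v) :
    ∃ S : Splitting P Q, ∀ v : S.V, ∃ x ∈ F,
      MulAction.stabilizer Q v = (MulAction.stabilizer G x).map π := by
  classical
  let act : MulAction Q F := descAction F π hπ hinv hker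
  have happ : ∀ (g : G) (x : F), (π g • x).1 = g • x.1 :=
    descAction_apply F π hπ hinv hker
  have hstab : ∀ x : F, MulAction.stabilizer Q x = (MulAction.stabilizer G x.1).map π := by
    intro x
    ext q
    rw [MulAction.mem_stabilizer_iff, Subgroup.mem_map]
    constructor
    · intro hq
      obtain ⟨g, rfl⟩ := hπ q
      refine ⟨g, ?_, rfl⟩
      rw [MulAction.mem_stabilizer_iff, ← happ, hq]
    · rintro ⟨g, hg, rfl⟩
      apply Subtype.ext
      rw [happ]; exact hg
  refine ⟨{ V := F
            act := act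
            T := T.induce F
            isTree := hF.isTree h.isTree hF0
            adj_smul := ?_
            no_inversion := ?_
            finite_vertex_orbits := ?_
            finite_edge_orbits := ?_
            edge_mem := ?_
            no_fixed_vertex := ?_ }, fun v => ⟨v.1, v.2, hstab v⟩⟩
  · intro q v w hvw
    obtain ⟨g, rfl⟩ := hπ q
    change T.Adj (π g • v).1 (π g • w).1
    rw [happ, happ]
    exact h.adj g _ _ hvw
  · intro q v w hvw
    obtain ⟨g, rfl⟩ := hπ q
    rintro ⟨h1, h2⟩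
    refine h.noInv g v.1 w.1 hvw ⟨?_, ?_⟩
    · rw [← happ, h1]
    · rw [← happ, h2]
  · obtain ⟨A, hA⟩ := hvo
    refine ⟨(A.subtype (· ∈ F)), fun v => ?_⟩
    obtain ⟨g, hg⟩ := hA v.1 v.2
    refine ⟨π g, ?_⟩
    rw [Finset.mem_subtype, happ]
    exact hg
  · obtain ⟨E, hEo⟩ := heo
    refine ⟨((E.subtype (fun p => p.1 ∈ F ∧ p.2 ∈ F)).image
      (fun p => ((⟨p.1.1, p.2.1⟩ : F), (⟨p.1.2, p.2.2⟩ : F)))), fun v w hvw => ?_⟩
    obtain ⟨g, hg⟩ := hEo v.1 v.2 w.1 w.2 hvw
    refine ⟨π g, ?_⟩
    rw [Finset.mem_image]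
    refine ⟨⟨(g • v.1, g • w.1), hinv _ _ v.2, hinv _ _ w.2⟩, ?_, ?_⟩
    · rw [Finset.mem_subtype]; exact hg
    · apply Prod.ext
      · apply Subtype.ext; exact (happ g v).symm
      · apply Subtype.ext; exact (happ g w).symm
  · intro v w hvw
    have h1 := hE v.1 v.2 w.1 w.2 hvw
    have h2 : MulAction.stabilizer Q v ⊓ MulAction.stabilizer Q w =
        (MulAction.stabilizer G v.1 ⊓ MulAction.stabilizer G w.1).map π := by
      ext q
      rw [Subgroup.mem_inf, MulAction.mem_stabilizer_iff, MulAction.mem_stabilizer_iff,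
        Subgroup.mem_map]
      constructor
      · rintro ⟨hv, hw⟩
        obtain ⟨g, rfl⟩ := hπ q
        refine ⟨g, ?_, rfl⟩
        rw [Subgroup.mem_inf, MulAction.mem_stabilizer_iff, MulAction.mem_stabilizer_iff,
          ← happ, ← happ, hv, hw]
        exact ⟨rfl, rfl⟩
      · rintro ⟨g, hg, rfl⟩
        rw [Subgroup.mem_inf, MulAction.mem_stabilizer_iff, MulAction.mem_stabilizer_iff] at hg
        constructor
        · apply Subtype.ext; rw [happ]; exact hg.1
        · apply Subtype.ext; rw [happ]; exact hg.2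
    rw [h2]
    exact h1
  · intro v
    obtain ⟨g, hg⟩ := hnf v.1 v.2
    refine ⟨π g, fun hcon => hg ?_⟩
    rw [← happ, hcon]

/-- Transport a splitting along an isomorphism. -/
theorem Splitting.congr (hP : Nice P) (S : Splitting P Q) (e : G ≃* Q) :
    ∃ S' : Splitting P G, ∀ v : S'.V, ∃ w : S.V,
      Nonempty (MulAction.stabilizer G v ≃* MulAction.stabilizer Q w) := by
  have hE : ∀ v w, S.T.Adj v w →
      P ↥((MulAction.stabilizer Q v ⊓ MulAction.stabilizer Q w).comap e.toMonoidHom) := by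
    intro v w hvw
    refine hP.inj (L := ↥(MulAction.stabilizer Q v ⊓ MulAction.stabilizer Q w))
      (e.toMonoidHom.subgroupComap _) ?_ (S.edge_mem v w hvw)
    intro x y hxy
    exact Subtype.ext (e.injective (congrArg Subtype.val hxy))
  have key : ∀ v : S.V, Nonempty
      (↥((MulAction.stabilizer Q v).comap e.toMonoidHom) ≃* MulAction.stabilizer Q v) := by
    intro v
    refine ⟨MulEquiv.ofBijective
      (e.toMonoidHom.subgroupComap (MulAction.stabilizer Q v)) ⟨?_, ?_⟩⟩
    · intro x y hxy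
      exact Subtype.ext (e.injective (congrArg Subtype.val hxy))
    · rintro ⟨y, hy⟩
      refine ⟨⟨e.symm y, ?_⟩, ?_⟩
      · rw [Subgroup.mem_comap]
        simpa using hy
      · apply Subtype.ext
        exact e.apply_symm_apply y
  exact ⟨S.pull e.toMonoidHom e.surjective hE, fun v => ⟨v, key v⟩⟩

theorem TerminatesIn.congr (hP : Nice P) (n : ℕ) : ∀ {G Q : Type} [Group G] [Group Q],
    (G ≃* Q) → TerminatesIn P n Q → TerminatesIn P n G := by
  have base : ∀ {G Q : Type} [Group G] [Group Q], (G ≃* Q) →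
      ¬ Nonempty (Splitting P Q) → ¬ Nonempty (Splitting P G) := by
    rintro G Q _ _ e h ⟨S⟩
    obtain ⟨S', _⟩ := S.congr hP e.symm
    exact h ⟨S'⟩
  induction n with
  | zero => intro G Q _ _ e h; exact base e h
  | succ n ih =>
    intro G Q _ _ e h
    rcases h with h | ⟨S, hS⟩
    · exact Or.inl (base e h)
    · right
      obtain ⟨S', hS'⟩ := S.congr hP e
      refine ⟨S', fun v => ?_⟩
      obtain ⟨w, ⟨e'⟩⟩ := hS' v
      exact ih e' (hS w)

theorem TerminatesIn.succ (n : ℕ) : ∀ {G : Type} [Group G],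
    TerminatesIn P n G → TerminatesIn P (n + 1) G := by
  induction n with
  | zero => intro G _ h; exact Or.inl h
  | succ n ih =>
    intro G _ h
    rcases h with h | ⟨S, hS⟩
    · exact Or.inl h
    · exact Or.inr ⟨S, fun v => ih (hS v)⟩

theorem TerminatesIn.mono {n m : ℕ} (hnm : n ≤ m) {G : Type} [Group G]
    (h : TerminatesIn P n G) : TerminatesIn P m G := by
  induction hnm with
  | refl => exact h
  | step _ ih => exact ih.succ

theorem TerminatesIn.of_not {n : ℕ} {G : Type} [Group G]
    (h : ¬ Nonempty (Splitting P G)) : TerminatesIn P n G :=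
  TerminatesIn.mono (Nat.zero_le n) h

end Pool.Agent.Helper705_SA
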