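import Pool.Agent.Helper705_SA.Class
import Pool.Agent.Helper270.Tree

set_option autoImplicit false

namespace Pool.Agent.Helper705_SA

open SimpleGraph Pool.Agent.Helper270.Tree

/-- Convex subsets of a tree. -/
def Conv {V : Type} (T : SimpleGraph V) (F : Set V) : Prop :=
  ∀ x ∈ F, ∀ y ∈ F, ∀ z, T.dist x z + T.dist z y = T.dist x y → z ∈ F

section Metric

variable {V : Type} {T : SimpleGraph V}

/-- If `x` and `y` lie on different sides of the edge `a b` then the edge is on the way. -/
theorem cross (hT : T.IsTree) {a b x y : V} (hab : T.Adj a b)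
    (hx : T.dist x b = T.dist x a + 1) (hy : T.dist y a = T.dist y b + 1) :
    T.dist x y = T.dist x a + 1 + T.dist b y := by
  obtain ⟨q, hq0, hq1, hqadj, hqd, hqnb⟩ := exists_geod hT b y
  set n := T.dist b y with hn
  -- the path `a, b = q 0, q 1, ..., q n = y`
  have h := nb hT (fun i : ℕ => if i = 0 then a else q (i - 1)) (n + 1) (by
    intro i hi
    by_cases h0 : i = 0
    · subst h0
      simpa [hq0] using hab
    · have e1 : i + 1 ≠ 0 := by omega
      simp only [h0, if_false, e1]
      have := hqadj (i - 1) (by omega)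
      rwa [show i - 1 + 1 = i + 1 - 1 from by omega] at this) (by
    intro i hi
    by_cases h0 : i = 0
    · subst h0
      simp only [if_true, show (0 + 2 : ℕ) ≠ 0 from by omega, if_false]
      intro hcon
      have h1 := (hqd 1 (by omega)).2
      have h2 : T.dist y a = n - 1 := by
        rw [dist_comm, hcon]; exact h1
      rw [dist_comm] at hn
      omega
    · have e1 : i + 2 ≠ 0 := by omega
      simp only [h0, if_false, e1]
      have := hqnb (i - 1) (by omega)
      rwa [show i - 1 + 2 = i + 2 - 1 from by omega] at this) x (by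
    intro _
    simp only [show (1 : ℕ) ≠ 0 from by omega, if_false, if_true, Nat.sub_self, hq0]
    exact hx) (n + 1) le_rfl
  simp only [show n + 1 ≠ 0 from by omega, if_false, if_true, Nat.add_sub_cancel] at h
  rw [hq1] at h
  omega

theorem side_dichotomy (hT : T.IsTree) {a b : V} (hab : T.Adj a b) (x : V) :
    T.dist x b = T.dist x a + 1 ∨ T.dist x a = T.dist x b + 1 := by
  rcases hT.dist_eq_dist_add_one_of_adj x hab with h | h
  · exact Or.inr h
  · exact Or.inl h

/-- A convex set with points on both sides of an edge contains both ends of it. -/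
theorem Conv.edge (hT : T.IsTree) {F : Set V} (hF : Conv T F) {a b x y : V} (hab : T.Adj a b)
    (hxF : x ∈ F) (hyF : y ∈ F)
    (hx : T.dist x b = T.dist x a + 1) (hy : T.dist y a = T.dist y b + 1) : a ∈ F ∧ b ∈ F := by
  have h := cross hT hab hx hy
  have h1 : T.dist b y = T.dist y b := dist_comm
  have h2 : T.dist a y = T.dist y a := dist_comm
  constructor
  · apply hF x hxF y hyF a; omega
  · apply hF x hxF y hyF b; omega

/-- A convex set containing `a` and not its neighbour `b` lies on the side of `a`. -/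
theorem Conv.side (hT : T.IsTree) {F : Set V} (hF : Conv T F) {a b : V} (hab : T.Adj a b)
    (ha : a ∈ F) (hb : b ∉ F) (z : V) (hz : z ∈ F) : T.dist z b = T.dist z a + 1 := by
  rcases side_dichotomy hT hab z with h | h
  · exact h
  · exfalso
    apply hb
    refine (hF.edge hT hab ha hz ?_ h).2
    rw [dist_self, dist_eq_one_iff_adj.mpr hab]

/-- Disjoint nonempty convex sets are separated by an edge. -/
theorem Conv.separate (hT : T.IsTree) {K F : Set V} (hK : Conv T K) (hF : Conv T F)
    (hK0 : K.Nonempty) (hF0 : F.Nonempty) (hKF : ¬ (K ∩ F).Nonempty) :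
    ∃ a b, T.Adj a b ∧ a ∈ K ∧ b ∉ K ∧ (∀ z ∈ K, T.dist z b = T.dist z a + 1) ∧
      (∀ z ∈ F, T.dist z a = T.dist z b + 1) := by
  classical
  have hex : ∃ n, ∃ x ∈ K, ∃ y ∈ F, T.dist x y = n := by
    obtain ⟨x, hx⟩ := hK0
    obtain ⟨y, hy⟩ := hF0
    exact ⟨_, x, hx, y, hy, rfl⟩
  obtain ⟨x, hx, y, hy, hxy⟩ := Nat.find_spec hex
  set d := Nat.find hex with hd
  have hmin : ∀ u ∈ K, ∀ v ∈ F, d ≤ T.dist u v := by
    intro u hu v hv
    exact Nat.find_min' hex ⟨u, hu, v, hv, rfl⟩
  have hd0 : 0 < d := by
    rcases Nat.eq_zero_or_pos d with h | h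
    · exfalso
      rw [h] at hxy
      have := hT.connected.dist_eq_zero_iff.mp hxy
      exact hKF ⟨x, hx, this ▸ hy⟩
    · exact h
  obtain ⟨q, hq0, hq1, hqadj, hqd, hqnb⟩ := exists_geod hT x y
  rw [hxy] at hq1 hqadj hqd hqnb
  have hadj : T.Adj x (q 1) := by
    have := hqadj 0 hd0
    rwa [hq0] at this
  have hbK : q 1 ∉ K := by
    intro h
    have h1 := hmin _ h y hy
    have h2 := (hqd 1 (by omega)).2
    omega
  refine ⟨x, q 1, hadj, hx, hbK, fun z hz => hK.side hT hadj hx hbK z hz, ?_⟩
  intro z hz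
  rcases side_dichotomy hT hadj z with h | h
  · exfalso
    have h1 : T.dist y x = T.dist y (q 1) + 1 := by
      have h2 := (hqd 1 (by omega)).2
      rw [dist_comm (u := y) (v := q 1), h2, dist_comm, hxy]; omega
    have := (hF.edge hT hadj hz hy h h1).1
    exact hKF ⟨x, hx, this⟩
  · exact h

/-- Helly's theorem for convex sets in trees. -/
theorem helly (hT : T.IsTree) {ι : Type} [Finite ι] (F : ι → Set V) (hF : ∀ i, Conv T (F i))
    (hpair : ∀ i j, (F i ∩ F j).Nonempty) : ∃ x, ∀ i, x ∈ F i := by
  classical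
  have := Fintype.ofFinite ι
  have key : ∀ s : Finset ι, ∃ x, ∀ i ∈ s, x ∈ F i := by
    intro s
    induction s using Finset.induction_on with
    | empty =>
      obtain ⟨v⟩ := hT.connected.nonempty
      exact ⟨v, by simp⟩
    | insert j s hj ih =>
      by_contra hcon
      set K : Set V := {x | ∀ i ∈ s, x ∈ F i} with hK
      have hKconv : Conv T K := by
        intro x hx y hy z hz i hi
        exact hF i x (hx i hi) y (hy i hi) z hz
      have hdis : ¬ (K ∩ F j).Nonempty := by
        rintro ⟨x, hx, hxj⟩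
        apply hcon
        refine ⟨x, fun i hi => ?_⟩
        rcases Finset.mem_insert.mp hi with rfl | hi
        · exact hxj
        · exact hx i hi
      obtain ⟨a, b, hab, haK, hbK, h1, h2⟩ := hKconv.separate hT (hF j) ih
        ((hpair j j).mono Set.inter_subset_left) hdis
      have : ∃ i ∈ s, b ∉ F i := by
        by_contra hcon2
        push Not at hcon2
        exact hbK hcon2
      obtain ⟨i, hi, hbi⟩ := this
      obtain ⟨z, hzi, hzj⟩ := hpair i j
      have h3 := (hF i).side hT hab (haK i hi) hbi z hzi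
      have h4 := h2 z hzj
      omega
  obtain ⟨x, hx⟩ := key Finset.univ
  exact ⟨x, fun i => hx i (Finset.mem_univ i)⟩

/-- Uniqueness of the nearest point of a convex set. -/
theorem Conv.nearest_unique (hT : T.IsTree) {F : Set V} (hF : Conv T F) {x x' y : V}
    (hx : x ∈ F) (hx' : x' ∈ F) (hmin : ∀ z ∈ F, T.dist x y ≤ T.dist z y)
    (h : T.dist x' y = T.dist x y) : x = x' := by
  by_contra hne
  obtain ⟨q, hq0, hq1, hqadj, hqd, hqnb⟩ := exists_geod hT x x'
  have hd0 : 0 < T.dist x x' := hT.connected.pos_dist_of_ne hne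
  have hadj : T.Adj x (q 1) := by
    have := hqadj 0 hd0
    rwa [hq0] at this
  have hmem : q 1 ∈ F := by
    apply hF x hx x' hx'
    have := hqd 1 (by omega)
    omega
  rcases side_dichotomy hT hadj y with h1 | h1
  · have := nb hT q (T.dist x x') hqadj hqnb y (by
      intro _; rw [hq0]; exact h1) (T.dist x x') le_rfl
    rw [hq1, hq0, dist_comm, h, dist_comm] at this
    omega
  · have h2 := hmin _ hmem
    rw [dist_comm (u := x), dist_comm (u := q 1)] at h2
    omega

end Metric

section Action

variable {G V : Type} [Group G] [MulAction G V] {T : SimpleGraph V}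

/-- The set of vertices fixed by a set of elements. -/
def FixSet (V : Type) [MulAction G V] (A : Set G) : Set V := {v | ∀ a ∈ A, a • v = v}

theorem fixSet_conv (h : TreeAct G T) (A : Set G) : Conv T (FixSet V A) := by
  intro x hx y hy z hz a ha
  exact h.convex (hx a ha) (hy a ha) hz

/-- If a subgroup `K` preserves a nonempty convex set and has a fixed vertex, then it has a fixed
vertex in the convex set. -/
theorem exists_fixed_in_conv (h : TreeAct G T) {F : Set V} (hF : Conv T F) (hF0 : F.Nonempty)
    (K : Set G) (hK : ∀ k ∈ K, ∀ x ∈ F, k • x ∈ F) (y : V) (hy : ∀ k ∈ K, k • y = y) :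
    ∃ x ∈ F, ∀ k ∈ K, k • x = x := by
  classical
  have hex : ∃ n, ∃ x ∈ F, T.dist x y = n := by
    obtain ⟨x, hx⟩ := hF0
    exact ⟨_, x, hx, rfl⟩
  obtain ⟨x, hx, hxy⟩ := Nat.find_spec hex
  have hmin : ∀ z ∈ F, T.dist x y ≤ T.dist z y := by
    intro z hz
    rw [hxy]
    exact Nat.find_min' hex ⟨z, hz, rfl⟩
  refine ⟨x, hx, fun k hk => ?_⟩
  symm
  apply hF.nearest_unique h.isTree hx (hK k hk x hx) hmin
  conv_lhs => rw [← hy k hk]
  exact h.dist_smul k x y

/-- A finite group acting on a tree has a fixed vertex. -/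
theorem exists_fixed_of_finite (h : TreeAct G T) [Finite G] : ∃ v : V, ∀ g : G, g • v = v := by
  by_contra hcon
  push Not at hcon
  have : Group.FG G := inferInstance
  obtain ⟨g, hg⟩ := h.exists_hyperbolic inferInstance hcon
  obtain ⟨L, l, hax⟩ := h.exists_axis hg
  obtain ⟨n, hn, hgn⟩ := isOfFinOrder_iff_pow_eq_one.mp (isOfFinOrder_of_finite g)
  have h1 := hax.smul_zpow n 0
  rw [zpow_natCast, hgn, one_smul] at h1
  have h2 := hax.line.injective h.isTree h1
  have h3 := hax.pos
  have : (0 : ℤ) < n * l := by positivity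
  omega

theorem hyperbolic_not_isOfFinOrder (h : TreeAct G T) {g : G} (hg : ∀ v : V, g • v ≠ v) :
    ¬ IsOfFinOrder g := by
  intro hfin
  obtain ⟨L, l, hax⟩ := h.exists_axis hg
  obtain ⟨n, hn, hgn⟩ := isOfFinOrder_iff_pow_eq_one.mp hfin
  have h1 := hax.smul_zpow n 0
  rw [zpow_natCast, hgn, one_smul] at h1
  have h2 := hax.line.injective h.isTree h1
  have h3 := hax.pos
  have : (0 : ℤ) < n * l := by positivity
  omega

end Action

/-- The induced graph on a nonempty convex set is a tree. -/
theorem Conv.isTree {V : Type} {T : SimpleGraph V} (hT : T.IsTree) {F : Set V} (hF : Conv T F)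
    (hF0 : F.Nonempty) : (T.induce F).IsTree := by
  constructor
  · rw [connected_iff]
    refine ⟨?_, ⟨⟨hF0.some, hF0.some_mem⟩⟩⟩
    rintro ⟨x, hx⟩ ⟨y, hy⟩
    obtain ⟨q, hq0, hq1, hqadj, hqd, hqnb⟩ := exists_geod hT x y
    have hmem : ∀ i ≤ T.dist x y, q i ∈ F := by
      intro i hi
      apply hF x hx y hy
      have := hqd i hi
      omega
    have key : ∀ i, (hi : i ≤ T.dist x y) →
        (T.induce F).Reachable ⟨x, hx⟩ ⟨q i, hmem i hi⟩ := by
      intro i
      induction i with
      | zero =>
        intro hi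
        have : (⟨x, hx⟩ : F) = ⟨q 0, hmem 0 hi⟩ := Subtype.ext hq0.symm
        rw [this]
      | succ i ih =>
        intro hi
        refine (ih (by omega)).trans (Adj.reachable ?_)
        exact hqadj i (by omega)
    have := key (T.dist x y) le_rfl
    have e : (⟨q (T.dist x y), hmem _ le_rfl⟩ : F) = ⟨y, hy⟩ := Subtype.ext hq1
    rwa [e] at this
  · exact hT.isAcyclic.comap (SimpleGraph.Embedding.induce (G := T) F).toHom
      (SimpleGraph.Embedding.induce (G := T) F).injective

end Pool.Agent.Helper705_SA
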